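import Pool.Agent.H.MP_3aed06_nt.B

set_option autoImplicit false

namespace Pool.Agent.H.MP_559555_nt
open Finset Pool.Agent.H.MP_3aed06_nt

lemma sg_nonneg (h : ℕ) : 0 ≤ sg h := prod_nonneg fun _ _ => by positivity

lemma one_le_prod_inv (A : Finset ℕ) : (1 : ℝ) ≤ ∏ l ∈ A, (1 + 1 / (l : ℝ)) := by
  simpa using (prod_le_prod (s := A) (f := fun _ => (1 : ℝ))
    (g := fun l : ℕ => (1 + 1 / (l : ℝ))) (fun _ _ => zero_le_one) (fun l _ => by simp))

lemma one_le_sg (h : ℕ) : 1 ≤ sg h := one_le_prod_inv _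

lemma root_iff {l a b n : ℕ} (hl : l.Prime) (ha : ¬ l ∣ a) (hn : n < l) :
    l ∣ a * n + b ↔ n = ((-(b : ZMod l)) * (a : ZMod l)⁻¹).val := by
  haveI : Fact l.Prime := ⟨hl⟩
  have ha' : (a : ZMod l) ≠ 0 := fun e => ha ((ZMod.natCast_eq_zero_iff a l).mp e)
  rw [← ZMod.natCast_eq_zero_iff]
  push_cast
  constructor
  · intro h
    have : (n : ZMod l) = (-(b : ZMod l)) * (a : ZMod l)⁻¹ := by
      field_simp
      linear_combination h
    rw [← this, ZMod.val_cast_of_lt hn]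
  · intro h
    have : (n : ZMod l) = (-(b : ZMod l)) * (a : ZMod l)⁻¹ := by
      rw [h, ZMod.natCast_zmod_val]
    rw [this]
    field_simp
    ring

lemma one_root {l a b : ℕ} (hl : l.Prime) (ha : ¬ l ∣ a) :
    ((range l).filter (fun n => l ∣ a * n + b)).card = 1 := by
  haveI : Fact l.Prime := ⟨hl⟩
  have : (range l).filter (fun n => l ∣ a * n + b) = {((-(b : ZMod l)) * (a : ZMod l)⁻¹).val} := by
    ext n
    simp only [mem_filter, mem_range, mem_singleton]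
    constructor
    · rintro ⟨h1, h2⟩
      exact (root_iff hl ha h1).mp h2
    · intro h
      have h1 : n < l := h ▸ ZMod.val_lt _
      exact ⟨h1, (root_iff hl ha h1).mpr h⟩
  rw [this, card_singleton]

lemma two_roots' {l a b c d : ℕ} (hl : l.Prime) (ha : ¬ l ∣ a) (hc : ¬ l ∣ c)
    (hd : ¬ (l : ℤ) ∣ (a : ℤ) * d - c * b) :
    ((range l).filter (fun n => l ∣ a * n + b ∨ l ∣ c * n + d)).card = 2 := by
  haveI : Fact l.Prime := ⟨hl⟩
  have ha' : (a : ZMod l) ≠ 0 := fun e => ha ((ZMod.natCast_eq_zero_iff a l).mp e)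
  have hc' : (c : ZMod l) ≠ 0 := fun e => hc ((ZMod.natCast_eq_zero_iff c l).mp e)
  have : (range l).filter (fun n => l ∣ a * n + b ∨ l ∣ c * n + d) =
      {((-(b : ZMod l)) * (a : ZMod l)⁻¹).val, ((-(d : ZMod l)) * (c : ZMod l)⁻¹).val} := by
    ext n
    simp only [mem_filter, mem_range, mem_insert, mem_singleton]
    constructor
    · rintro ⟨h1, h2 | h2⟩
      · exact Or.inl ((root_iff hl ha h1).mp h2)
      · exact Or.inr ((root_iff hl hc h1).mp h2)
    · rintro (h | h)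
      · have h1 : n < l := h ▸ ZMod.val_lt _
        exact ⟨h1, Or.inl ((root_iff hl ha h1).mpr h)⟩
      · have h1 : n < l := h ▸ ZMod.val_lt _
        exact ⟨h1, Or.inr ((root_iff hl hc h1).mpr h)⟩
  rw [this, card_pair]
  intro e
  have e2 := ZMod.val_injective l e
  apply hd
  rw [← ZMod.intCast_zmod_eq_zero_iff_dvd]
  push_cast
  field_simp at e2
  linear_combination e2

lemma sieve_fin (S : Finset ℕ) (y : ℕ) (Z L M : ℝ) (hL1 : 1 ≤ L) (hZ : 0 ≤ Z)
    (h1 : S.card * L ^ 2 ≤ y * L + Z) (h9 : 1 / L ≤ M) : (S.card : ℝ) ≤ Z + y * M := by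
  have h10 : (S.card : ℝ) ≤ Z + y * (1 / L) := by
    apply le_of_mul_le_mul_right _ (by positivity : 0 < L ^ 2)
    have e : (Z + y * (1 / L)) * L ^ 2 = Z * L ^ 2 + y * L := by
      field_simp
    have h11 : (1 : ℝ) ≤ L ^ 2 := one_le_pow₀ hL1
    have h12 : Z ≤ Z * L ^ 2 := le_mul_of_one_le_right hZ h11
    rw [e]
    linarith
  have h13 : (y : ℝ) * (1 / L) ≤ y * M := by gcongr
  linarith

lemma sieve_one (a b x y w : ℕ) (hw : 0 < w) (H : ℝ) (hH : 0 < H)
    (hH' : H ≤ ∑ n ∈ Ioc (0 : ℕ) w, 1 / ((n : ℕ) : ℝ)) (ha : 0 < a) (S : Finset ℕ)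
    (hS : S ⊆ range y) (hS' : ∀ n ∈ S, (a * (x + n) + b).Prime ∧ w < a * (x + n) + b) :
    (S.card : ℝ) ≤ 2 * (w : ℝ) ^ 4 + y * (2 * sg a / H) := by
  set P := Pw w \ a.primeFactors with hP
  have hP1 : ∀ l ∈ P, l.Prime ∧ l ≤ w ∧ ¬ l ∣ a := by
    intro l hl
    simp only [hP, Pw, mem_sdiff, mem_filter, mem_range, Nat.mem_primeFactors, not_and] at hl
    exact ⟨hl.1.2, by omega, fun e => hl.2 hl.1.2 e ha.ne'⟩
  set L := ∑ T ∈ P.powerset.filter (fun T => ∏ l ∈ T, l ≤ w), ∏ l ∈ T, (1 / ((l : ℝ) - 1))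
    with hL
  have h5 : ∀ l ∈ P, (2 : ℝ) ≤ l := fun l hl => by exact_mod_cast (hP1 l hl).1.two_le
  have hcnt : ∀ l ∈ P, ∀ u v : ℝ, ∑ n ∈ range l, (if l ∣ a * n + b then u else v) =
      u + (l - 1) * v := by
    intro l hl u v
    have h1 := one_root (b := b) (hP1 l hl).1 (hP1 l hl).2.2
    have h2 := card_filter_add_card_filter_not (s := range l) (fun n => l ∣ a * n + b)
    rw [h1, card_range] at h2
    rw [sum_ite, sum_const, sum_const, h1, nsmul_eq_mul, nsmul_eq_mul]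
    have h3 := congrArg (Nat.cast : ℕ → ℝ) h2
    push_cast at h3 ⊢
    rw [← h3]; ring
  have h1 := sieve P (fun l hl => (hP1 l hl).1)
    (fun l n => if l ∣ a * n + b then -1 else 1 / ((l : ℝ) - 1)) (fun l => 1 / ((l : ℝ) - 1))
    (fun l _ n => by
      have e : a * (n + l) + b = a * n + b + l * a := by ring
      simp only [e, (Nat.dvd_add_iff_left (dvd_mul_right l a)).symm])
    (fun l hl n => by
      have := h5 l hl
      split_ifs
      · simp
      · rw [abs_of_nonneg (div_nonneg (by norm_num) (by linarith)), div_le_one (by linarith)]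
        linarith)
    (fun l hl => by
      have : (l : ℝ) - 1 ≠ 0 := by linarith [h5 l hl]
      rw [hcnt l hl]; field_simp; ring)
    (fun l hl => by
      have : (l : ℝ) - 1 ≠ 0 := by linarith [h5 l hl]
      simp only [ite_mul_ite]
      rw [hcnt l hl]; field_simp; ring)
    w x y S hS
    (fun n hn l hl => by
      obtain ⟨h3, h2⟩ := hS' n hn
      obtain ⟨h6, h7, -⟩ := hP1 l hl
      rw [if_neg]
      intro e
      have := (Nat.prime_dvd_prime_iff_eq h6 h3).mp e; omega) L hL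
  have hL1 : 1 ≤ L := by
    have := single_le_sum (f := fun T : Finset ℕ => ∏ l ∈ T, (1 / ((l : ℝ) - 1)))
      (s := P.powerset.filter (fun T => ∏ l ∈ T, l ≤ w)) (a := ∅)
      (fun T hT => prod_nonneg fun l hl => div_nonneg (by norm_num)
        (by linarith [h5 l (mem_powerset.mp (mem_filter.mp hT).1 hl)]))
      (by simp; omega)
    rw [prod_empty] at this
    exact this
  have hL2 : ∑ T ∈ Qs P w, r T ≤ L := by
    apply sum_le_sum
    intro T hT
    apply prod_le_prod (fun _ _ => by positivity)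
    intro l hl
    have := h5 l (mem_powerset.mp (mem_filter.mp hT).1 hl)
    exact div_le_div_of_nonneg_left (by norm_num) (by linarith) (by linarith)
  have h3 := split (Pw w) a.primeFactors (fun l hl => (mem_filter.mp hl).2.pos) w
  have h4 := H_le w
  have hsg := sg_nonneg a
  rw [← hP] at h3
  change _ ≤ _ * sg a at h3
  set E := ∑ A ∈ Qs P w, r A
  clear hL hcnt
  clear_value L E
  have h7 : H ≤ 2 * sg a * L := by nlinarith
  refine sieve_fin S y _ L _ hL1 (by positivity) h1 ?_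
  rw [div_le_div_iff₀ (by linarith) hH]
  linarith

lemma sieve_two (a b c d N y w : ℕ) (hw : 0 < w) (H : ℝ) (hH : 0 < H)
    (hH' : H ≤ ∑ n ∈ Ioc (0 : ℕ) w, 1 / ((n : ℕ) : ℝ)) (hN : 0 < N)
    (hd : ∀ l : ℕ, l.Prime → ¬ l ∣ N → ¬ l ∣ a ∧ ¬ l ∣ c ∧ ¬ (l : ℤ) ∣ (a : ℤ) * d - c * b)
    (S : Finset ℕ) (hS : S ⊆ range y)
    (hS' : ∀ n ∈ S, (a * n + b).Prime ∧ w < a * n + b ∧ (c * n + d).Prime ∧ w < c * n + d) :
    (S.card : ℝ) ≤ 2 * (w : ℝ) ^ 8 + y * (16 * Real.exp 2 * sg N ^ 2 / H ^ 2) := by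
  set P := Pw w \ ({2, 3} ∪ N.primeFactors) with hP
  have hP1 : ∀ l ∈ P, l.Prime ∧ l ≤ w ∧ 5 ≤ l ∧ ¬ l ∣ N := by
    intro l hl
    simp only [hP, Pw, mem_sdiff, mem_filter, mem_range, mem_union, mem_insert, mem_singleton,
      Nat.mem_primeFactors, not_or, not_and] at hl
    refine ⟨hl.1.2, by omega, hl.1.2.five_le_of_ne_two_of_ne_three hl.2.1.1 hl.2.1.2,
      fun e => hl.2.2 hl.1.2 e hN.ne'⟩
  set L := ∑ T ∈ P.powerset.filter (fun T => ∏ l ∈ T, l ≤ w * w), ∏ l ∈ T, (2 / ((l : ℝ) - 2))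
    with hL
  have h5 : ∀ l ∈ P, (5 : ℝ) ≤ l := fun l hl => by exact_mod_cast (hP1 l hl).2.2.1
  have hcnt : ∀ l ∈ P, ∀ u v : ℝ,
      ∑ n ∈ range l, (if l ∣ a * n + b ∨ l ∣ c * n + d then u else v) = 2 * u + (l - 2) * v := by
    intro l hl u v
    obtain ⟨k1, k2, k3⟩ := hd l (hP1 l hl).1 (hP1 l hl).2.2.2
    have h1 := two_roots' (hP1 l hl).1 k1 k2 k3
    have h2 := card_filter_add_card_filter_not (s := range l)
      (fun n => l ∣ a * n + b ∨ l ∣ c * n + d)
    rw [h1, card_range] at h2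
    rw [sum_ite, sum_const, sum_const, h1, nsmul_eq_mul, nsmul_eq_mul]
    have h3 := congrArg (Nat.cast : ℕ → ℝ) h2
    push_cast at h3 ⊢
    rw [← h3]; ring
  have h1 := sieve P (fun l hl => (hP1 l hl).1)
    (fun l n => if l ∣ a * n + b ∨ l ∣ c * n + d then -1 else 2 / ((l : ℝ) - 2))
    (fun l => 2 / ((l : ℝ) - 2))
    (fun l _ n => by
      have e : a * (n + l) + b = a * n + b + l * a := by ring
      have e' : c * (n + l) + d = c * n + d + l * c := by ring
      simp only [e, e', (Nat.dvd_add_iff_left (dvd_mul_right l a)).symm,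
        (Nat.dvd_add_iff_left (dvd_mul_right l c)).symm])
    (fun l hl n => by
      have := h5 l hl
      split_ifs
      · simp
      · rw [abs_of_nonneg (div_nonneg (by norm_num) (by linarith)), div_le_one (by linarith)]
        linarith)
    (fun l hl => by
      have : (l : ℝ) - 2 ≠ 0 := by linarith [h5 l hl]
      rw [hcnt l hl]; field_simp; ring)
    (fun l hl => by
      have : (l : ℝ) - 2 ≠ 0 := by linarith [h5 l hl]
      simp only [ite_mul_ite]
      rw [hcnt l hl]; field_simp; ring)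
    (w * w) 0 y S hS
    (fun n hn l hl => by
      obtain ⟨h3, h2, h4, h4'⟩ := hS' n hn
      obtain ⟨h6, h7, -, -⟩ := hP1 l hl
      rw [zero_add, if_neg]
      rintro (e | e)
      · have := (Nat.prime_dvd_prime_iff_eq h6 h3).mp e; omega
      · have := (Nat.prime_dvd_prime_iff_eq h6 h4).mp e; omega) L hL
  have hL1 : 1 ≤ L := by
    have := single_le_sum (f := fun T : Finset ℕ => ∏ l ∈ T, (2 / ((l : ℝ) - 2)))
      (s := P.powerset.filter (fun T => ∏ l ∈ T, l ≤ w * w)) (a := ∅)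
      (fun T hT => prod_nonneg fun l hl => div_nonneg (by norm_num)
        (by linarith [h5 l (mem_powerset.mp (mem_filter.mp hT).1 hl)]))
      (by simp; nlinarith)
    rw [prod_empty] at this
    exact this
  have hL2 : ∑ T ∈ Qs P (w * w), ∏ l ∈ T, (2 / (l : ℝ)) ≤ L := by
    apply sum_le_sum
    intro T hT
    apply prod_le_prod (fun _ _ => by positivity)
    intro l hl
    have := h5 l (mem_powerset.mp (mem_filter.mp hT).1 hl)
    exact div_le_div_of_nonneg_left (by norm_num) (by linarith) (by linarith)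
  have h2 := sq_le P (fun l hl => (hP1 l hl).1.pos) w
  have h3 := split (Pw w) ({2, 3} ∪ N.primeFactors) (fun l hl => (mem_filter.mp hl).2.pos) w
  have h4 := H_le w
  have hsg : 0 ≤ sg N := sg_nonneg N
  have h6 : ∏ l ∈ ({2, 3} ∪ N.primeFactors : Finset ℕ), (1 + 1 / (l : ℝ)) ≤ 2 * sg N := by
    have h7 := prod_union_inter (s₁ := ({2, 3} : Finset ℕ)) (s₂ := N.primeFactors)
      (f := fun l : ℕ => (1 + 1 / (l : ℝ)))
    have h8 := one_le_prod_inv ({2, 3} ∩ N.primeFactors : Finset ℕ)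
    have h9 : ∏ l ∈ ({2, 3} : Finset ℕ), (1 + 1 / (l : ℝ)) = 2 := by
      rw [prod_pair (by norm_num)]; norm_num
    have h10 : (0 : ℝ) ≤ ∏ l ∈ ({2, 3} ∪ N.primeFactors : Finset ℕ), (1 + 1 / (l : ℝ)) :=
      prod_nonneg fun _ _ => by positivity
    rw [h9] at h7
    unfold sg
    nlinarith
  rw [← hP] at h3
  set E := ∑ A ∈ Qs P w, r A
  have hE : 0 ≤ E := sum_nonneg fun _ _ => r_nonneg _
  clear hL hcnt
  clear_value L E
  have h7 : H ≤ 4 * sg N * E := by nlinarith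
  have h8 : H ^ 2 ≤ 16 * Real.exp 2 * sg N ^ 2 * L := by
    calc H ^ 2 ≤ (4 * sg N * E) ^ 2 := by gcongr
      _ = 16 * sg N ^ 2 * E ^ 2 := by ring
      _ ≤ 16 * sg N ^ 2 * (Real.exp 2 * L) := by
        gcongr
        exact h2.trans (by gcongr)
      _ = _ := by ring
  refine sieve_fin S y _ L _ hL1 (by positivity) ?_ ?_
  · rw [Nat.cast_mul] at h1
    have h13 : ((w : ℝ) * w) ^ 4 = (w : ℝ) ^ 8 := by ring
    rwa [h13] at h1
  · rw [div_le_div_iff₀ (by linarith) (by positivity)]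
    linarith

/-- pairwise congruent numbers are determined by their quotients -/
lemma div_inj {D u v : ℕ} (h : u ≡ v [MOD D]) (e : u / D = v / D) : u = v := by
  rw [← Nat.div_add_mod u D, ← Nat.div_add_mod v D, e, h]

lemma card_cong (A : Finset ℕ) (D Y : ℕ) (hA : ∀ u ∈ A, u ≤ Y)
    (h : ∀ u ∈ A, ∀ v ∈ A, u ≡ v [MOD D]) : A.card ≤ Y / D + 1 := by
  rw [← card_range (Y / D + 1)]
  apply card_le_card_of_injOn (fun u => u / D)
  · intro u hu
    simp only [coe_range, Set.mem_Iio]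
    exact Nat.lt_succ_of_le (Nat.div_le_div_right (hA u hu))
  · intro u hu v hv e
    exact div_inj (h u hu v hv) e

lemma bt_dyadic (t i D : ℕ) (ht : 1 ≤ t) (hD : 0 < D) (hi : D * 2 ^ (5 * t) ≤ 2 ^ i)
    (Q : Finset ℕ) (hQ : ∀ q ∈ Q, q.Prime ∧ 2 ^ i < q ∧ q ≤ 2 ^ (i + 1))
    (h : ∀ u ∈ Q, ∀ v ∈ Q, u ≡ v [MOD D]) :
    (Q.card : ℝ) ≤ 13 * sg D * 2 ^ i / (D * t) := by
  rcases Q.eq_empty_or_nonempty with rfl | ⟨q0, hq0⟩
  · simp only [card_empty, Nat.cast_zero]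
    have := sg_nonneg D
    positivity
  have hinj : Set.InjOn (fun q => q / D - 2 ^ i / D) Q := by
    intro u hu v hv e
    have h1 : 2 ^ i / D ≤ u / D := Nat.div_le_div_right (hQ u hu).2.1.le
    have h2 : 2 ^ i / D ≤ v / D := Nat.div_le_div_right (hQ v hv).2.1.le
    exact div_inj (h u hu v hv) (by dsimp only at e; omega)
  have h5 : 2 ^ t ≤ 2 ^ i := by
    calc 2 ^ t ≤ 2 ^ (5 * t) := Nat.pow_le_pow_right (by norm_num) (by omega)
      _ ≤ D * 2 ^ (5 * t) := Nat.le_mul_of_pos_left _ hD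
      _ ≤ _ := hi
  have h1 := sieve_one D (q0 % D) (2 ^ i / D) (2 ^ i / D + 2) (2 ^ t) (by positivity) _
    (by positivity) (H_ge t) hD (Q.image (fun q => q / D - 2 ^ i / D))
    (by
      intro n hn
      obtain ⟨q, hq, rfl⟩ := mem_image.mp hn
      have h1 : q / D ≤ (2 ^ i + 2 ^ i) / D := Nat.div_le_div_right (by
        have := (hQ q hq).2.2; rw [pow_succ] at this; omega)
      have h3 : (2 ^ i + 2 ^ i) / D ≤ 2 ^ i / D + 2 ^ i / D + 1 := by
        rw [Nat.add_div hD]; split_ifs <;> omega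
      rw [mem_range]
      generalize (2 ^ i + 2 ^ i) / D = A at h1 h3
      generalize 2 ^ i / D = B at h3 ⊢
      generalize q / D = C at h1 ⊢
      omega)
    (by
      intro n hn
      obtain ⟨q, hq, rfl⟩ := mem_image.mp hn
      have h1 : 2 ^ i / D ≤ q / D := Nat.div_le_div_right (hQ q hq).2.1.le
      have e : D * (2 ^ i / D + (q / D - 2 ^ i / D)) + q0 % D = q := by
        rw [Nat.add_sub_cancel' h1, h q0 hq0 q hq, Nat.div_add_mod]
      rw [e]
      exact ⟨(hQ q hq).1, lt_of_le_of_lt h5 (hQ q hq).2.1⟩)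
  rw [card_image_of_injOn hinj] at h1
  have hD' : (0 : ℝ) < D := by exact_mod_cast hD
  have ht' : (1 : ℝ) ≤ t := by exact_mod_cast ht
  have hi' : (D : ℝ) * 2 ^ (5 * t) ≤ 2 ^ i := by exact_mod_cast hi
  have h2t : (2 * t : ℝ) ≤ 2 ^ t := by
    have : 2 * t ≤ 2 ^ t := by
      obtain ⟨s, rfl⟩ : ∃ s, t = s + 1 := ⟨t - 1, by omega⟩
      have := Nat.lt_two_pow_self (n := s)
      rw [pow_succ]; omega
    exact_mod_cast this
  have hsg := one_le_sg D
  have a1 : 2 * (((2 ^ t : ℕ) : ℝ)) ^ 4 ≤ sg D * 2 ^ i / (D * t) := by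
    rw [le_div_iff₀ (by positivity)]
    push_cast
    have e : (2 : ℝ) ^ (5 * t) = (2 ^ t) ^ 4 * 2 ^ t := by ring
    calc (2 * ((2 : ℝ) ^ t) ^ 4 * (D * t) : ℝ) = D * ((2 ^ t) ^ 4 * (2 * t)) := by ring
      _ ≤ D * (((2 : ℝ) ^ t) ^ 4 * 2 ^ t) := by gcongr
      _ ≤ (2 : ℝ) ^ i := by rw [← e]; exact hi'
      _ ≤ _ := le_mul_of_one_le_left (by positivity) hsg
  have a2 : (((2 ^ i / D + 2 : ℕ)) : ℝ) ≤ 3 * (2 ^ i / D) := by
    have b1 : (((2 ^ i / D : ℕ)) : ℝ) ≤ 2 ^ i / D := by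
      have := Nat.cast_div_le (α := ℝ) (m := 2 ^ i) (n := D)
      push_cast at this; exact this
    have b2 : (1 : ℝ) ≤ 2 ^ i / D := by
      rw [le_div_iff₀ hD']
      have : (1 : ℝ) ≤ 2 ^ (5 * t) := one_le_pow₀ (by norm_num)
      nlinarith
    push_cast; linarith
  have a3 : 2 * sg D / (((t : ℝ) + 1) / 2) ≤ 4 * sg D / t := by
    rw [div_le_div_iff₀ (by positivity) (by positivity)]
    nlinarith
  have a4 : (((2 ^ i / D + 2 : ℕ)) : ℝ) * (2 * sg D / (((t : ℝ) + 1) / 2)) ≤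
      3 * (2 ^ i / D) * (4 * sg D / t) := by gcongr
  have e : 13 * sg D * 2 ^ i / (D * t) = sg D * 2 ^ i / (D * t) + 3 * (2 ^ i / D) * (4 * sg D / t) := by
    field_simp; ring
  rw [e]; linarith

lemma bt (t u D : ℕ) (ht : 1 ≤ t) (hD : 0 < D) (hi : D * 2 ^ (5 * t) ≤ 2 ^ u)
    (Q : Finset ℕ) (hQ : ∀ q ∈ Q, q.Prime ∧ 2 ^ u < q ∧ q ≤ 2 ^ (u + 2 * t))
    (h : ∀ u ∈ Q, ∀ v ∈ Q, u ≡ v [MOD D]) :
    ∑ q ∈ Q, 1 / (q : ℝ) ≤ 26 * sg D / D := by
  have key : ∀ n : ℕ, ∑ q ∈ Q.filter (fun q => q ≤ 2 ^ (u + n)), 1 / (q : ℝ) ≤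
      n * (13 * sg D / (D * t)) := by
    intro n
    induction n with
    | zero =>
      rw [filter_false_of_mem (fun q hq => by have := (hQ q hq).2.1; simp only [add_zero]; omega)]
      simp
    | succ n ih =>
      have e : Q.filter (fun q => q ≤ 2 ^ (u + (n + 1))) = Q.filter (fun q => q ≤ 2 ^ (u + n)) ∪
          Q.filter (fun q => 2 ^ (u + n) < q ∧ q ≤ 2 ^ (u + n + 1)) := by
        ext q
        have : 2 ^ (u + n) ≤ 2 ^ (u + n + 1) := Nat.pow_le_pow_right (by norm_num) (by omega)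
        simp only [mem_filter, mem_union, ← add_assoc]
        constructor
        · rintro ⟨h1, h2⟩
          by_cases h3 : q ≤ 2 ^ (u + n)
          · exact Or.inl ⟨h1, h3⟩
          · exact Or.inr ⟨h1, by omega, h2⟩
        · rintro (⟨h1, h2⟩ | ⟨h1, h2⟩)
          · exact ⟨h1, by omega⟩
          · exact ⟨h1, h2.2⟩
      rw [e, sum_union (by
        rw [disjoint_filter]; intro q _ h1 h2; omega)]
      have h1 := bt_dyadic t (u + n) D ht hD
        (hi.trans (Nat.pow_le_pow_right (by norm_num) (by omega)))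
        (Q.filter (fun q => 2 ^ (u + n) < q ∧ q ≤ 2 ^ (u + n + 1)))
        (fun q hq => ⟨(hQ q (mem_filter.mp hq).1).1, (mem_filter.mp hq).2⟩)
        (fun a ha b hb => h a (mem_filter.mp ha).1 b (mem_filter.mp hb).1)
      have h2 := sum_le_card_nsmul (Q.filter (fun q => 2 ^ (u + n) < q ∧ q ≤ 2 ^ (u + n + 1)))
        (fun q : ℕ => 1 / (q : ℝ)) (1 / 2 ^ (u + n)) (fun q hq => by
          have : ((2 ^ (u + n) : ℕ) : ℝ) ≤ q := by exact_mod_cast (mem_filter.mp hq).2.1.le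
          push_cast at this
          exact one_div_le_one_div_of_le (by positivity) this)
      rw [nsmul_eq_mul] at h2
      have h3 : (((Q.filter (fun q => 2 ^ (u + n) < q ∧ q ≤ 2 ^ (u + n + 1))).card : ℝ)) *
          (1 / 2 ^ (u + n)) ≤ 13 * sg D * 2 ^ (u + n) / (D * t) * (1 / 2 ^ (u + n)) := by gcongr
      have e2 : 13 * sg D * 2 ^ (u + n) / (D * t) * (1 / 2 ^ (u + n)) = 13 * sg D / (D * t) := by
        field_simp
      push_cast
      linarith
  have h1 := key (2 * t)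
  rw [filter_true_of_mem (fun q hq => (hQ q hq).2.2)] at h1
  have hD' : (0 : ℝ) < D := by exact_mod_cast hD
  have ht' : (0 : ℝ) < t := by exact_mod_cast ht
  refine h1.trans (le_of_eq ?_)
  push_cast
  field_simp
  ring

end Pool.Agent.H.MP_559555_nt
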