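import Pool.Agent.H.MP_559555_nt.A
import Pool.Agent.Lib.helper12.Primes

set_option autoImplicit false

namespace Pool.Agent.H.MP_559555_nt
open Finset Pool.Agent.H.MP_3aed06_nt

lemma pair_param (m a m' a' X : ℕ) (ha : 0 < a) (ha' : 0 < a') (C : Finset (ℕ × ℕ))
    (hC : ∀ z ∈ C, z.1 ≤ X ∧ m + z.1 * a = m' + z.2 * a') (hne : C.Nonempty) :
    ∃ P0 P0' : ℕ, m + P0 * a = m' + P0' * a' ∧ ∃ S : Finset ℕ, S.card = C.card ∧
      S ⊆ range (X / (a' / Nat.gcd a a') + 1) ∧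
      ∀ n ∈ S, (a' / Nat.gcd a a' * n + P0, a / Nat.gcd a a' * n + P0') ∈ C := by
  obtain ⟨z0, hz0, hmin⟩ := C.exists_min_image (fun z => z.1) hne
  have hg : 0 < Nat.gcd a a' := Nat.gcd_pos_of_pos_left _ ha
  have hcop := Nat.coprime_div_gcd_div_gcd hg
  obtain ⟨b, hb⟩ := Nat.gcd_dvd_left a a'
  obtain ⟨b', hb'⟩ := Nat.gcd_dvd_right a a'
  have e1 : a / Nat.gcd a a' = b := Nat.div_eq_of_eq_mul_right hg hb
  have e2 : a' / Nat.gcd a a' = b' := Nat.div_eq_of_eq_mul_right hg hb'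
  rw [e1, e2] at hcop ⊢
  generalize Nat.gcd a a' = g at hg hb hb'
  subst hb hb'
  have hb0 : 0 < b := Nat.pos_of_mul_pos_left ha
  have hb0' : 0 < b' := Nat.pos_of_mul_pos_left ha'
  have key : ∀ z ∈ C, z = (b' * ((z.1 - z0.1) / b') + z0.1, b * ((z.1 - z0.1) / b') + z0.2) := by
    intro z hz
    have h1 := (hC z hz).2
    have h2 := (hC z0 hz0).2
    obtain ⟨u, hu⟩ := Nat.exists_eq_add_of_le (hmin z hz)
    have h3 : z0.2 ≤ z.2 := by
      by_contra h4
      have h5 : z.2 * (g * b') < z0.2 * (g * b') := Nat.mul_lt_mul_of_pos_right (by omega) ha'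
      have h6 : z0.1 * (g * b) ≤ z.1 * (g * b) := Nat.mul_le_mul_right _ (hmin z hz)
      omega
    obtain ⟨v, hv⟩ := Nat.exists_eq_add_of_le h3
    have h4 : u * b = v * b' := by
      apply Nat.eq_of_mul_eq_mul_left hg
      rw [hu, hv] at h1
      nlinarith
    have h5 : b' ∣ u := hcop.symm.dvd_of_dvd_mul_right ⟨v, by rw [h4, mul_comm]⟩
    obtain ⟨s, rfl⟩ := h5
    have h6 : v = b * s := by
      apply Nat.eq_of_mul_eq_mul_left hb0'
      nlinarith
    have h7 : (z.1 - z0.1) / b' = s := by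
      rw [hu, Nat.add_sub_cancel_left, Nat.mul_div_cancel_left _ hb0']
    rw [h7]
    ext
    · dsimp only; omega
    · dsimp only; omega
  refine ⟨z0.1, z0.2, (hC z0 hz0).2, C.image (fun z => (z.1 - z0.1) / b'), ?_, ?_, ?_⟩
  · apply card_image_of_injOn
    intro z hz z' hz' e
    dsimp only at e
    rw [key z hz, key z' hz', e]
  · intro n hn
    obtain ⟨z, hz, rfl⟩ := mem_image.mp hn
    rw [mem_range]
    exact Nat.lt_succ_of_le (Nat.div_le_div_right ((Nat.sub_le _ _).trans (hC z hz).1))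
  · intro n hn
    obtain ⟨z, hz, rfl⟩ := mem_image.mp hn
    rw [← key z hz]; exact hz

lemma pair_dvd {m a m' a' P P' : ℕ} (h : m + P * a = m' + P' * a') :
    m ≡ m' [MOD Nat.gcd a a'] := by
  have h1 : m + P * a ≡ m + 0 [MOD Nat.gcd a a'] :=
    Nat.ModEq.add_left _ ((Nat.modEq_zero_iff_dvd).mpr ((Nat.gcd_dvd_left _ _).mul_left _))
  have h2 : m' + P' * a' ≡ m' + 0 [MOD Nat.gcd a a'] :=
    Nat.ModEq.add_left _ ((Nat.modEq_zero_iff_dvd).mpr ((Nat.gcd_dvd_right _ _).mul_left _))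
  rw [h] at h1
  simpa using h1.symm.trans h2

lemma y_le (X a a' : ℕ) (ha : 0 < a) (ha' : 0 < a') :
    ((X / (a' / Nat.gcd a a') + 1 : ℕ) : ℝ) ≤ X * Nat.gcd a a' / a' + 1 := by
  have hg : 0 < Nat.gcd a a' := Nat.gcd_pos_of_pos_left _ ha
  have h1 := Nat.cast_div_le (α := ℝ) (m := X) (n := a' / Nat.gcd a a')
  rw [Nat.cast_div (Nat.gcd_dvd_right a a') (by exact_mod_cast hg.ne'), div_div_eq_mul_div] at h1
  push_cast
  linarith

lemma pair_triv (m a m' a' X : ℕ) (ha : 0 < a) (ha' : 0 < a') (C : Finset (ℕ × ℕ))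
    (hC : ∀ z ∈ C, z.1 ≤ X ∧ m + z.1 * a = m' + z.2 * a') :
    (C.card : ℝ) ≤ if m ≡ m' [MOD Nat.gcd a a'] then (X : ℝ) * Nat.gcd a a' / a' + 1 else 0 := by
  rcases C.eq_empty_or_nonempty with rfl | hne
  · simp only [card_empty, Nat.cast_zero]
    split_ifs <;> positivity
  obtain ⟨P0, P0', h0, S, h1, h2, -⟩ := pair_param m a m' a' X ha ha' C hC hne
  rw [if_pos (pair_dvd h0), ← h1]
  have h3 := card_le_card h2
  rw [card_range] at h3
  exact le_trans (by exact_mod_cast h3) (y_le X a a' ha ha')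

lemma pair_sieve (m a m' a' X t : ℕ) (ha : 0 < a) (ha' : 0 < a') (hm : m ≠ m')
    (C : Finset (ℕ × ℕ))
    (hC : ∀ z ∈ C, z.1 ≤ X ∧ m + z.1 * a = m' + z.2 * a')
    (hC' : ∀ z ∈ C, z.1.Prime ∧ 2 ^ t < z.1 ∧ z.2.Prime ∧ 2 ^ t < z.2) :
    (C.card : ℝ) ≤ if m ≡ m' [MOD Nat.gcd a a'] then
      2 * (2 ^ t : ℝ) ^ 8 + ((X : ℝ) * Nat.gcd a a' / a' + 1) *
        (64 * Real.exp 2 * sg (a * a' * ((m : ℤ) - m').natAbs) ^ 2 / (t + 1) ^ 2) else 0 := by
  rcases C.eq_empty_or_nonempty with rfl | hne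
  · simp only [card_empty, Nat.cast_zero]
    split_ifs <;> positivity
  obtain ⟨P0, P0', h0, S, h1, h2, h3⟩ := pair_param m a m' a' X ha ha' C hC hne
  rw [if_pos (pair_dvd h0), ← h1]
  have hg : 0 < Nat.gcd a a' := Nat.gcd_pos_of_pos_left _ ha
  have hh : 0 < ((m : ℤ) - m').natAbs := Int.natAbs_pos.mpr (by omega)
  have h4 := sieve_two (a' / Nat.gcd a a') P0 (a / Nat.gcd a a') P0'
    (a * a' * ((m : ℤ) - m').natAbs) _ (2 ^ t) (by positivity) _ (by positivity) (H_ge t)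
    (by positivity)
    (fun l hl hN => by
      refine ⟨fun e => hN ?_, fun e => hN ?_, fun e => hN ?_⟩
      · exact ((e.trans (Nat.div_dvd_of_dvd (Nat.gcd_dvd_right a a'))).mul_left _).mul_right _
      · exact ((e.trans (Nat.div_dvd_of_dvd (Nat.gcd_dvd_left a a'))).mul_right _).mul_right _
      · apply Dvd.dvd.mul_left
        rw [← Int.natCast_dvd]
        have k1 : ((Nat.gcd a a' : ℕ) : ℤ) * ((a / Nat.gcd a a' : ℕ) : ℤ) = a := by
          exact_mod_cast Nat.mul_div_cancel' (Nat.gcd_dvd_left a a')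
        have k2 : ((Nat.gcd a a' : ℕ) : ℤ) * ((a' / Nat.gcd a a' : ℕ) : ℤ) = a' := by
          exact_mod_cast Nat.mul_div_cancel' (Nat.gcd_dvd_right a a')
        have k3 : (m : ℤ) + P0 * a = m' + P0' * a' := by exact_mod_cast h0
        have k4 : (m : ℤ) - m' = ((Nat.gcd a a' : ℕ) : ℤ) *
            (((a' / Nat.gcd a a' : ℕ) : ℤ) * P0' - ((a / Nat.gcd a a' : ℕ) : ℤ) * P0) := by
          linear_combination k3 - P0' * k2 + P0 * k1
        rw [k4]
        exact e.mul_left _)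
    S h2 (fun n hn => hC' _ (h3 n hn))
  have h5 := y_le X a a' ha ha'
  have e : 16 * Real.exp 2 * sg (a * a' * ((m : ℤ) - m').natAbs) ^ 2 / (((t : ℝ) + 1) / 2) ^ 2 =
      64 * Real.exp 2 * sg (a * a' * ((m : ℤ) - m').natAbs) ^ 2 / (t + 1) ^ 2 := by
    field_simp; ring
  rw [e] at h4
  refine h4.trans ?_
  push_cast at h5 ⊢
  gcongr

lemma pointwise (K : ℕ) : ∃ C : ℝ, 0 < C ∧ ∀ A : Finset ℕ, (∀ l ∈ A, l.Prime) →
    (∏ l ∈ A, (1 + 1 / (l : ℝ))) ^ K ≤ C * (1 + ∑ l ∈ A, 1 / Real.sqrt l) := by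
  obtain ⟨C0, hC0, h0⟩ := Pool.Agent.Lib.helper12.exists_prime_sum_bound
  refine ⟨Real.exp ((K * C0) ^ 2 + K) * 2, by positivity, fun A hA => ?_⟩
  set F := ∑ l ∈ A, 1 / Real.sqrt l with hF
  have hF0 : 0 ≤ F := sum_nonneg fun _ _ => by positivity
  obtain ⟨v, hv1, hv2⟩ : ∃ v : ℕ, F ≤ 2 ^ v ∧ (2 : ℝ) ^ v ≤ 2 * (1 + F) := by
    obtain ⟨n, h1, h2⟩ := exists_nat_pow_near (x := 1 + F) (y := 2) (by linarith) (by norm_num)
    exact ⟨n + 1, by linarith, by rw [pow_succ]; linarith⟩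
  have h1 : ∏ l ∈ A, (1 + 1 / (l : ℝ)) ≤ Real.exp (∑ l ∈ A, 1 / (l : ℝ)) := by
    rw [Real.exp_sum]
    exact prod_le_prod (fun _ _ => by positivity) (fun l _ => by
      linarith [Real.add_one_le_exp (1 / (l : ℝ))])
  have h2 : ∑ l ∈ A.filter (fun l => l ≤ 4 ^ v), 1 / (l : ℝ) ≤ C0 * Real.sqrt (2 * v) := by
    refine le_trans ?_ (mul_le_mul_of_nonneg_right
      (h0 (A.filter (fun l => l ≤ 4 ^ v)) (fun p hp => hA p (mem_filter.mp hp).1))
      (Real.sqrt_nonneg _))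
    rw [sum_mul]
    apply sum_le_sum
    intro p hp
    obtain ⟨hp1, hp2⟩ := mem_filter.mp hp
    have k1 : 1 ≤ Nat.log 2 p := Nat.log_pos (by norm_num) (hA p hp1).two_le
    have k2 : Nat.log 2 p ≤ 2 * v := by
      have : Nat.log 2 p ≤ Nat.log 2 (2 ^ (2 * v)) :=
        Nat.log_mono_right (by rw [pow_mul]; exact hp2)
      rwa [Nat.log_pow (by norm_num)] at this
    have k3 : (0 : ℝ) < Real.sqrt (Nat.log 2 p) := Real.sqrt_pos.mpr (by exact_mod_cast k1)
    have k4 : Real.sqrt (Nat.log 2 p) ≤ Real.sqrt (2 * v) :=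
      Real.sqrt_le_sqrt (by exact_mod_cast k2)
    have k5 : (0 : ℝ) < p := by exact_mod_cast (hA p hp1).pos
    rw [div_mul_eq_mul_div, one_mul, div_le_div_iff₀ k5 (by positivity)]
    nlinarith
  have h3 : ∑ l ∈ A.filter (fun l => ¬ l ≤ 4 ^ v), 1 / (l : ℝ) ≤ 1 := by
    calc ∑ l ∈ A.filter (fun l => ¬ l ≤ 4 ^ v), 1 / (l : ℝ)
        ≤ ∑ l ∈ A.filter (fun l => ¬ l ≤ 4 ^ v), 1 / Real.sqrt l * (1 / 2 ^ v) := by
          apply sum_le_sum
          intro p hp
          have hp2 : 4 ^ v ≤ p := by have := (mem_filter.mp hp).2; omega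
          have k1 : ((2 : ℝ) ^ v) ≤ Real.sqrt p := by
            apply Real.le_sqrt_of_sq_le
            rw [← pow_mul, mul_comm, pow_mul]
            norm_num
            exact_mod_cast hp2
          have k2 : (0 : ℝ) < Real.sqrt p := lt_of_lt_of_le (by positivity) k1
          rw [one_div_mul_one_div]
          apply one_div_le_one_div_of_le (by positivity)
          calc Real.sqrt p * 2 ^ v ≤ Real.sqrt p * Real.sqrt p := by gcongr
            _ = p := Real.mul_self_sqrt (by positivity)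
      _ ≤ F * (1 / 2 ^ v) := by
          rw [← sum_mul]
          exact mul_le_mul_of_nonneg_right (sum_le_sum_of_subset_of_nonneg (filter_subset _ _)
            (fun _ _ _ => by positivity)) (by positivity)
      _ ≤ 1 := by
          rw [mul_one_div, div_le_one (by positivity)]; exact hv1
  have h4 := sum_filter_add_sum_filter_not A (fun l => l ≤ 4 ^ v) (fun l => 1 / (l : ℝ))
  have h5 : (K : ℝ) * ∑ l ∈ A, 1 / (l : ℝ) ≤ ((K * C0) ^ 2 + K) + v * Real.log 2 := by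
    have k1 : Real.sqrt (2 * v) * Real.sqrt (2 * v) = 2 * v := Real.mul_self_sqrt (by positivity)
    have k2 := Real.log_two_gt_d9
    have k3 : (K : ℝ) * ∑ l ∈ A, 1 / (l : ℝ) ≤ K * (C0 * Real.sqrt (2 * v) + 1) := by
      gcongr; linarith
    have k4 : (v : ℝ) / 2 ≤ v * Real.log 2 := by
      have : (0 : ℝ) ≤ v := by positivity
      nlinarith
    nlinarith [sq_nonneg (K * C0 - Real.sqrt (2 * v) / 2)]
  calc (∏ l ∈ A, (1 + 1 / (l : ℝ))) ^ K ≤ Real.exp (∑ l ∈ A, 1 / (l : ℝ)) ^ K := by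
        gcongr
    _ = Real.exp (K * ∑ l ∈ A, 1 / (l : ℝ)) := by rw [Real.exp_nat_mul]
    _ ≤ Real.exp (((K * C0) ^ 2 + K) + v * Real.log 2) := Real.exp_le_exp.mpr h5
    _ = Real.exp ((K * C0) ^ 2 + K) * 2 ^ v := by
        rw [Real.exp_add, Real.exp_nat_mul, Real.exp_log (by norm_num)]
    _ ≤ Real.exp ((K * C0) ^ 2 + K) * (2 * (1 + F)) := by gcongr
    _ = _ := by ring

lemma succ_pow_le (K a : ℕ) (hK : 0 < K) : (a + 1) ^ K ≤ K ^ K * 2 ^ a := by
  have h1 : a + 1 ≤ K * 2 ^ (a / K) := by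
    have h2 := Nat.lt_two_pow_self (n := a / K)
    have h3 := Nat.div_add_mod a K
    have h4 := Nat.mod_lt a hK
    calc a + 1 ≤ K * (a / K + 1) := by rw [mul_add]; omega
      _ ≤ _ := Nat.mul_le_mul_left _ h2
  calc (a + 1) ^ K ≤ (K * 2 ^ (a / K)) ^ K := Nat.pow_le_pow_left h1 _
    _ = K ^ K * 2 ^ (a / K * K) := by rw [mul_pow, ← pow_mul]
    _ ≤ _ := Nat.mul_le_mul_left _ (Nat.pow_le_pow_right (by norm_num) (Nat.div_mul_le_self _ _))

lemma divisor_bound (K : ℕ) (hK : 0 < K) : ∃ C : ℕ, ∀ n : ℕ, n ≠ 0 →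
    n.divisors.card ^ K ≤ C ^ K * n := by
  refine ⟨K ^ (2 ^ K), fun n hn => ?_⟩
  rw [Nat.card_divisors hn, ← prod_pow]
  have h1 : ∏ p ∈ n.primeFactors, (n.factorization p + 1) ^ K ≤
      ∏ p ∈ n.primeFactors, ((if p < 2 ^ K then K ^ K else 1) * p ^ n.factorization p) := by
    apply prod_le_prod' 
    intro p hp
    have hp2 := (Nat.prime_of_mem_primeFactors hp).two_le
    split_ifs with h
    · exact (succ_pow_le K _ hK).trans (Nat.mul_le_mul_left _ (Nat.pow_le_pow_left hp2 _))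
    · calc (n.factorization p + 1) ^ K ≤ (2 ^ n.factorization p) ^ K :=
            Nat.pow_le_pow_left (Nat.lt_two_pow_self) _
        _ = (2 ^ K) ^ n.factorization p := by rw [← pow_mul, ← pow_mul, mul_comm]
        _ ≤ _ := by rw [one_mul]; exact Nat.pow_le_pow_left (by omega) _
  rw [prod_mul_distrib] at h1
  have h2 : ∏ p ∈ n.primeFactors, p ^ n.factorization p = n := by
    conv_rhs => rw [← Nat.factorization_prod_pow_eq_self hn]
    rfl
  rw [h2, prod_ite, prod_const_one, mul_one, prod_const] at h1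
  refine h1.trans (Nat.mul_le_mul_right _ ?_)
  rw [← pow_mul, ← pow_mul, mul_comm (2 ^ K)]
  apply Nat.pow_le_pow_right hK (Nat.mul_le_mul_left _ _)
  calc _ ≤ (range (2 ^ K)).card := card_le_card (fun p hp => mem_range.mpr (mem_filter.mp hp).2)
    _ = _ := card_range _

lemma sum_div_le (n : ℕ) (hn : n ≠ 0) : ∑ d ∈ n.divisors, 1 / (d : ℝ) ≤ sg n * 2 := by
  choose a b hab ha using Nat.sq_mul_squarefree
  have h1 := inj_sum n.divisors (n.primeFactors.powerset ×ˢ Ioc 0 n)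
    (fun d => ((a d).primeFactors, b d))
    (fun d hd => by
      have h0 := Nat.dvd_of_mem_divisors hd
      have h00 := Nat.pos_of_mem_divisors hd
      have h01 := Nat.divisor_le hd
      have h2 := hab d
      have h3 : 0 < b d := Nat.pos_of_ne_zero (fun h => by rw [h] at h2; simp at h2; omega)
      have h4 : 0 < a d := Nat.pos_of_ne_zero (ha d).ne_zero
      simp only [mem_product, mem_powerset, mem_Ioc]
      exact ⟨Nat.primeFactors_mono ((Dvd.intro_left _ h2).trans h0) hn, h3, by nlinarith⟩)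
    (fun n _ m _ e => by
      simp only [Prod.mk.injEq] at e
      have h2 : a n = a m := by
        rw [← Nat.prod_primeFactors_of_squarefree (ha n), e.1,
          Nat.prod_primeFactors_of_squarefree (ha m)]
      rw [← hab n, ← hab m, h2, e.2])
    (fun n => 1 / (n : ℝ)) (fun z => r z.1 * (1 / (z.2 : ℝ) ^ 2))
    (fun z => mul_nonneg (r_nonneg _) (by positivity))
    (fun n _ => by
      have h2 : r (a n).primeFactors = 1 / (a n : ℝ) := by
        rw [r, prod_div_distrib, prod_const_one, ← Nat.cast_prod,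
          Nat.prod_primeFactors_of_squarefree (ha n)]
      simp only [h2]
      conv_lhs => rw [← hab n]
      push_cast
      rw [one_div_mul_one_div, mul_comm])
  rw [sum_product] at h1
  dsimp only at h1
  rw [← sum_mul_sum] at h1
  have e : ∑ T ∈ n.primeFactors.powerset, r T = sg n := by
    rw [sg, prod_one_add]; rfl
  rw [e] at h1
  exact h1.trans (mul_le_mul_of_nonneg_left (sum_sq_le _ (fun l hl => (mem_Ioc.mp hl).1))
    (sg_nonneg n))

lemma sg_mono {d n : ℕ} (h : d ∣ n) (hn : n ≠ 0) : sg d ≤ sg n := by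
  unfold sg
  rw [← prod_sdiff (Nat.primeFactors_mono h hn)]
  exact le_mul_of_one_le_left (prod_nonneg fun _ _ => by positivity) (one_le_prod_inv _)

lemma sg_mul_prime {d l : ℕ} (hd : d ≠ 0) (hl : l.Prime) : sg (d * l) ≤ 2 * sg d := by
  unfold sg
  rw [Nat.primeFactors_mul hd hl.ne_zero, hl.primeFactors, union_comm, ← insert_eq]
  have h0 : (0 : ℝ) ≤ ∏ l ∈ d.primeFactors, (1 + 1 / (l : ℝ)) :=
    prod_nonneg fun _ _ => by positivity
  by_cases h : l ∈ d.primeFactors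
  · rw [insert_eq_of_mem h]; linarith
  · rw [prod_insert h]
    have : 1 / (l : ℝ) ≤ 1 := by
      rw [div_le_one (by exact_mod_cast hl.pos)]; exact_mod_cast hl.pos
    nlinarith

lemma sg_split (N D : ℕ) :
    sg N ≤ sg D * ∏ l ∈ N.primeFactors \ D.primeFactors, (1 + 1 / (l : ℝ)) := by
  unfold sg
  rw [← prod_inter_mul_prod_sdiff N.primeFactors D.primeFactors]
  apply mul_le_mul_of_nonneg_right _ (prod_nonneg fun _ _ => by positivity)
  rw [← prod_sdiff (inter_subset_right (s₁ := N.primeFactors) (s₂ := D.primeFactors))]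
  exact le_mul_of_one_le_left (prod_nonneg fun _ _ => by positivity) (one_le_prod_inv _)

lemma harm_le (u : ℕ) : ∑ n ∈ Ioc (0 : ℕ) (2 ^ u), 1 / (n : ℝ) ≤ 1 + u := by
  have h := Pool.Agent.Lib.helper12.H_le (2 ^ u)
  have h2 : Real.log ((2 ^ u : ℕ) : ℝ) ≤ u := by
    push_cast
    rw [Real.log_pow]
    have := Real.log_two_lt_d9
    have : (0 : ℝ) ≤ u := by positivity
    nlinarith
  have e : Pool.Agent.Lib.helper12.H (2 ^ u) = ∑ n ∈ Ioc (0 : ℕ) (2 ^ u), 1 / (n : ℝ) := rfl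
  linarith

lemma harm_sub (A : Finset ℕ) (u : ℕ) (hA : ∀ n ∈ A, 0 < n ∧ n ≤ 2 ^ u) :
    ∑ n ∈ A, 1 / (n : ℝ) ≤ 1 + u :=
  le_trans (sum_le_sum_of_subset_of_nonneg (fun n hn => mem_Ioc.mpr (hA n hn))
    (fun _ _ _ => by positivity)) (harm_le u)

lemma harm_dvd (A : Finset ℕ) (u D : ℕ) (hA : ∀ n ∈ A, 0 < n ∧ n ≤ 2 ^ u ∧ D ∣ n) :
    ∑ n ∈ A, 1 / (n : ℝ) ≤ (1 + u) / D := by
  have h1 := inj_sum A (Ioc 0 (2 ^ u)) (fun n => n / D)
    (fun n hn => by
      obtain ⟨h1, h2, h3⟩ := hA n hn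
      exact mem_Ioc.mpr ⟨Nat.div_pos (Nat.le_of_dvd h1 h3) (Nat.pos_of_dvd_of_pos h3 h1),
        (Nat.div_le_self _ _).trans h2⟩)
    (fun n hn m hm e => by
      dsimp only at e
      rw [← Nat.mul_div_cancel' (hA n hn).2.2, ← Nat.mul_div_cancel' (hA m hm).2.2, e])
    (fun n => 1 / (n : ℝ)) (fun n => 1 / (n : ℝ) * (1 / D)) (fun _ => by positivity)
    (fun n hn => by
      conv_lhs => rw [← Nat.mul_div_cancel' (hA n hn).2.2]
      push_cast
      rw [one_div_mul_one_div, mul_comm])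
  rw [← sum_mul] at h1
  refine h1.trans ?_
  rw [mul_one_div]
  gcongr
  exact harm_le u

lemma omega_le (N u : ℕ) (hN : N ≠ 0) (h : N ≤ 2 ^ u) : N.primeFactors.card ≤ u := by
  have h1 : 2 ^ N.primeFactors.card ≤ ∏ p ∈ N.primeFactors, p :=
    pow_card_le_prod _ _ _ (fun p hp => (Nat.prime_of_mem_primeFactors hp).two_le)
  have h2 : ∏ p ∈ N.primeFactors, p ≤ N :=
    Nat.le_of_dvd (Nat.pos_of_ne_zero hN) (Nat.prod_primeFactors_dvd N)
  exact (Nat.pow_le_pow_iff_right (by norm_num)).mp (h1.trans (h2.trans h))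

/-- small primes -/
def Lp (t : ℕ) : Finset ℕ := (range (t ^ 2 + 1)).filter Nat.Prime

lemma cut (A : Finset ℕ) (N c t : ℕ) (ht : 1 ≤ t) (hN : N ≠ 0) (h : N ≤ 2 ^ (c * t))
    (hA : A ⊆ N.primeFactors) :
    ∑ l ∈ A, 1 / Real.sqrt l ≤ c + ∑ l ∈ Lp t, if l ∈ A then 1 / Real.sqrt l else 0 := by
  rw [← sum_filter_add_sum_filter_not A (fun l => l ≤ t ^ 2), add_comm]
  have ht' : (0 : ℝ) < t := by exact_mod_cast ht
  apply add_le_add
  · have h1 := sum_le_card_nsmul (A.filter (fun l => ¬ l ≤ t ^ 2)) (fun l : ℕ => 1 / Real.sqrt l)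
      (1 / t) (fun l hl => by
        apply one_div_le_one_div_of_le ht'
        apply Real.le_sqrt_of_sq_le
        have : t ^ 2 ≤ l := by have := (mem_filter.mp hl).2; omega
        exact_mod_cast this)
    have h2 : (A.filter (fun l => ¬ l ≤ t ^ 2)).card ≤ c * t :=
      (card_le_card ((filter_subset _ _).trans hA)).trans (omega_le N _ hN h)
    have h3 : ((A.filter (fun l => ¬ l ≤ t ^ 2)).card : ℝ) ≤ c * t := by exact_mod_cast h2
    rw [nsmul_eq_mul, mul_one_div] at h1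
    refine h1.trans ?_
    rwa [div_le_iff₀ ht']
  · rw [← sum_filter]
    apply sum_le_sum_of_subset_of_nonneg _ (fun _ _ _ => by positivity)
    intro l hl
    obtain ⟨h1, h2⟩ := mem_filter.mp hl
    exact mem_filter.mpr ⟨mem_filter.mpr ⟨mem_range.mpr (by omega),
      Nat.prime_of_mem_primeFactors (hA h1)⟩, h1⟩

lemma sum32 : ∃ C : ℝ, 0 ≤ C ∧ ∀ A : Finset ℕ, ∑ l ∈ A, 1 / Real.sqrt l * (1 / (l : ℝ)) ≤ C := by
  have hs : Summable (fun j : ℕ => 1 / (j : ℝ) ^ (3 / 2 : ℝ)) :=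
    Real.summable_one_div_nat_rpow.2 (by norm_num)
  refine ⟨∑' j : ℕ, 1 / (j : ℝ) ^ (3 / 2 : ℝ), tsum_nonneg (fun j => by positivity), fun A => ?_⟩
  refine le_trans (le_of_eq (sum_congr rfl fun l _ => ?_))
    (hs.sum_le_tsum A (fun j _ => by positivity))
  rw [one_div_mul_one_div, Real.sqrt_eq_rpow]
  congr 1
  rcases Nat.eq_zero_or_pos l with rfl | hl
  · simp
  · rw [show (3 / 2 : ℝ) = 1 / 2 + 1 by norm_num, Real.rpow_add (by exact_mod_cast hl),
      Real.rpow_one]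

lemma cheb : ∃ y0 : ℕ, ∀ y : ℕ, y0 ≤ y →
    (y : ℝ) ≤ ((Ioc y (4 * y)).filter Nat.Prime).card * Real.log (4 * y) := by
  have h1 : ∀ᶠ x : ℝ in Filter.atTop, ‖Real.log x‖ ≤ (1 / 100) * ‖x ^ (1 / 2 : ℝ)‖ :=
    (isLittleO_log_rpow_atTop (by norm_num : (0 : ℝ) < 1 / 2)).bound (by norm_num)
  obtain ⟨x0, hx0⟩ := Filter.eventually_atTop.mp h1
  refine ⟨⌈x0⌉₊ + 1, fun y hy => ?_⟩
  have hy1 : (1 : ℝ) ≤ y := by exact_mod_cast (show 1 ≤ y by omega)
  have hy2 : x0 ≤ y := (Nat.le_ceil x0).trans (by exact_mod_cast (show ⌈x0⌉₊ ≤ y by omega))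
  have k : ∀ x : ℝ, y ≤ x → Real.log x ≤ Real.sqrt x / 100 := by
    intro x hx
    have := hx0 x (hy2.trans hx)
    rw [Real.norm_of_nonneg (Real.log_nonneg (by linarith)),
      Real.norm_of_nonneg (Real.rpow_nonneg (by linarith) _), ← Real.sqrt_eq_rpow] at this
    linarith
  have h2 := Chebyshev.theta_ge (4 * y)
  have h3 := Chebyshev.theta_le_log4_mul_x (x := y) (by positivity)
  have h4 : Chebyshev.theta ((4 * y : ℕ) : ℝ) = Chebyshev.theta (y : ℝ) +
      ∑ p ∈ (Ioc y (4 * y)).filter Nat.Prime, Real.log p := by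
    unfold Chebyshev.theta
    rw [Nat.floor_natCast, Nat.floor_natCast, sum_filter, sum_filter, sum_filter,
      sum_Ioc_consecutive _ (Nat.zero_le y) (by omega)]
  have h5 := sum_le_card_nsmul ((Ioc y (4 * y)).filter Nat.Prime) (fun p : ℕ => Real.log p)
    (Real.log (4 * y)) (fun p hp => by
      obtain ⟨a, b⟩ := mem_filter.mp hp
      apply Real.log_le_log (by exact_mod_cast b.pos)
      exact_mod_cast (mem_Ioc.mp a).2)
  rw [nsmul_eq_mul] at h5
  rw [h4] at h2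
  push_cast at h2
  have l1 := k (4 * y) (by linarith)
  have l2 := k (4 * y + 1) (by linarith)
  have l3 : Real.sqrt (4 * y + 1) ≤ 4 * y + 1 := by
    rw [Real.sqrt_le_left (by positivity)]; nlinarith
  have l4 : Real.sqrt (4 * y) * Real.sqrt (4 * y) = 4 * y := Real.mul_self_sqrt (by positivity)
  have l5 : Real.sqrt (4 * y) * Real.log (4 * y) ≤ Real.sqrt (4 * y) * (Real.sqrt (4 * y) / 100) := by
    gcongr
  have l6 : Real.log 4 = 2 * Real.log 2 := by
    rw [show (4 : ℝ) = 2 ^ 2 by norm_num, Real.log_pow]; norm_num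
  have l7 := Real.log_two_gt_d9
  rw [l6] at h3
  nlinarith

lemma recip_lower : ∃ u0 : ℕ, ∀ u n : ℕ, u0 ≤ u →
    (n : ℝ) / (8 * (u + n)) ≤ ∑ p ∈ (Ioc (4 ^ u) (4 ^ (u + n))).filter Nat.Prime, 1 / (p : ℝ) := by
  obtain ⟨y0, h0⟩ := cheb
  refine ⟨y0 + 1, fun u n hu => ?_⟩
  have key : ∀ i, i ≤ n → (i : ℝ) / (8 * (u + n)) ≤
      ∑ p ∈ (Ioc (4 ^ u) (4 ^ (u + i))).filter Nat.Prime, 1 / (p : ℝ) := by
    intro i
    induction i with
    | zero => intro _; simp
    | succ i ih =>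
      intro hi
      have h1 := ih (by omega)
      have m1 : 4 ^ u ≤ 4 ^ (u + i) := Nat.pow_le_pow_right (by norm_num) (by omega)
      have m2 : 4 ^ (u + i) ≤ 4 ^ (u + (i + 1)) := Nat.pow_le_pow_right (by norm_num) (by omega)
      rw [sum_filter] at h1 ⊢
      rw [← sum_Ioc_consecutive _ m1 m2, ← sum_filter (s := Ioc (4 ^ (u + i)) _)]
      have h2 := h0 (4 ^ (u + i)) (by
        have := Nat.lt_pow_self (n := u + i) (show 1 < 4 by norm_num); omega)
      have e : 4 * 4 ^ (u + i) = 4 ^ (u + (i + 1)) := by ring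
      rw [e] at h2
      have h3 := card_nsmul_le_sum ((Ioc (4 ^ (u + i)) (4 ^ (u + (i + 1)))).filter Nat.Prime)
        (fun p : ℕ => 1 / (p : ℝ)) (1 / (4 * 4 ^ (u + i))) (fun p hp => by
          obtain ⟨a, b⟩ := mem_filter.mp hp
          apply one_div_le_one_div_of_le (by exact_mod_cast b.pos)
          have := (mem_Ioc.mp a).2
          rw [← e] at this
          exact_mod_cast this)
      rw [nsmul_eq_mul] at h3
      set c : ℝ := (((Ioc (4 ^ (u + i)) (4 ^ (u + (i + 1)))).filter Nat.Prime).card : ℝ)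
      have hc : 0 ≤ c := by positivity
      have h4 : Real.log (4 * ((4 ^ (u + i) : ℕ) : ℝ)) ≤ 2 * (u + n) := by
        push_cast
        rw [← pow_succ', show (4 : ℝ) = 2 ^ 2 by norm_num, ← pow_mul, Real.log_pow]
        have := Real.log_two_lt_d9
        have h5 : ((2 * (u + i + 1) : ℕ) : ℝ) ≤ 2 * (u + n) := by
          exact_mod_cast (show 2 * (u + i + 1) ≤ 2 * (u + n) by omega)
        have : (0 : ℝ) ≤ ((2 * (u + i + 1) : ℕ) : ℝ) := by positivity
        nlinarith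
      have h5 : ((4 : ℝ) ^ (u + i)) ≤ c * (2 * (u + n)) := by
        have : c * Real.log (4 * ((4 ^ (u + i) : ℕ) : ℝ)) ≤ c * (2 * (u + n)) := by gcongr
        push_cast at h2 this
        linarith
      have hu' : (0 : ℝ) < u + n := by
        have : 0 < u + n := by omega
        exact_mod_cast this
      have h6 : 1 / (8 * ((u : ℝ) + n)) ≤ c * (1 / (4 * 4 ^ (u + i))) := by
        rw [mul_one_div, div_le_div_iff₀ (by positivity) (by positivity)]
        linarith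
      push_cast
      rw [add_div]
      linarith
  exact key n le_rfl

end Pool.Agent.H.MP_559555_nt
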