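import Pool.Agent.H.MP_559555_nt.B

set_option autoImplicit false

namespace Pool.Agent.H.MP_559555_nt
open Finset Pool.Agent.H.MP_3aed06_nt

def W (n : ℕ) : ℕ := ∑ p ∈ n.primeFactors, n / p ^ (n.factorization p)

lemma W_mul_prime {m p : ℕ} (hm : m ≠ 0) (hp : p.Prime) (h : ¬ p ∣ m) :
    W (m * p) = m + p * W m := by
  unfold W
  have hn : p ∉ m.primeFactors := fun e => h (Nat.dvd_of_mem_primeFactors e)
  rw [Nat.primeFactors_mul hm hp.ne_zero, hp.primeFactors, union_comm, ← insert_eq,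
    sum_insert hn, Nat.factorization_mul hm hp.ne_zero, hp.factorization, mul_sum]
  congr 1
  · simp [Nat.factorization_eq_zero_of_not_dvd h, Nat.mul_div_cancel _ hp.pos]
  · apply sum_congr rfl
    intro l hl
    have : p ≠ l := fun e => hn (e ▸ hl)
    simp only [Finsupp.add_apply, Finsupp.single_apply, this, if_false, add_zero]
    rw [mul_comm m p, Nat.mul_div_assoc _ (Nat.ordProj_dvd m l)]

lemma W_coprime {n : ℕ} (hn : n ≠ 0) : Nat.Coprime (W n) n := by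
  apply Nat.coprime_of_dvd
  intro p hp h1 h2
  have hm : p ∈ n.primeFactors := Nat.mem_primeFactors.mpr ⟨hp, h2, hn⟩
  unfold W at h1
  rw [← add_sum_erase _ _ hm] at h1
  have h3 : p ∣ ∑ l ∈ n.primeFactors.erase p, n / l ^ (n.factorization l) := by
    apply dvd_sum
    intro l hl
    obtain ⟨h4, h5⟩ := mem_erase.mp hl
    have h6 : Nat.Coprime p (l ^ n.factorization l) :=
      Nat.Coprime.pow_right _ ((Nat.coprime_primes hp (Nat.prime_of_mem_primeFactors h5)).mpr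
        (Ne.symm h4))
    apply h6.dvd_of_dvd_mul_left
    rw [Nat.ordProj_mul_ordCompl_eq_self]
    exact h2
  exact Nat.not_dvd_ordCompl hp hn ((Nat.dvd_add_iff_left h3).mpr h1)

lemma W_half (i : ℕ) : 4 * i + 2 ≤ 2 * W (4 * i + 2) := by
  have := W_mul_prime (m := 2 * i + 1) (by omega) Nat.prime_two (by omega)
  rw [show 4 * i + 2 = (2 * i + 1) * 2 by ring, this]
  omega

lemma W_le (n : ℕ) : W n ≤ n * n := by
  have h1 := sum_le_card_nsmul n.primeFactors (fun p => n / p ^ (n.factorization p)) n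
    (fun p _ => Nat.div_le_self _ _)
  have h2 : n.primeFactors.card ≤ n := by
    calc n.primeFactors.card ≤ (Ioc 0 n).card := card_le_card (fun p hp =>
          mem_Ioc.mpr ⟨(Nat.prime_of_mem_primeFactors hp).pos, Nat.le_of_mem_primeFactors hp⟩)
      _ = n := by simp
  exact h1.trans (Nat.mul_le_mul_right _ h2)

def Js (t : ℕ) : Finset ℕ := (Ioc 0 (2 ^ (t - 3))).image (fun i => 4 * i + 2)
def Rs (t : ℕ) : Finset ℕ := (Ioc (2 ^ (10 * t)) (2 ^ (12 * t))).filter Nat.Prime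
def Ks (t : ℕ) : Finset ℕ := (Js t ×ˢ Rs t).image (fun z => z.1 * z.2)
def QS (t : ℕ) : Finset ℕ := (Ioc (2 ^ (58 * t)) (2 ^ (60 * t))).filter Nat.Prime
def aa (k q : ℕ) : ℕ := k + q * W k
def Dl (k k' : ℕ) : ℕ := ((k : ℤ) ^ 2 * W k' - (k' : ℤ) ^ 2 * W k).natAbs

lemma p2 {a b : ℕ} (h : a ≤ b) : 2 ^ a ≤ 2 ^ b := Nat.pow_le_pow_right (by norm_num) h

lemma mul_p2 {x y a b c : ℕ} (hx : x ≤ 2 ^ a) (hy : y ≤ 2 ^ b) (h : a + b ≤ c) :
    x * y ≤ 2 ^ c :=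
  (Nat.mul_le_mul hx hy).trans (by rw [← pow_add]; exact p2 h)

lemma mem_Js {t j : ℕ} (ht : 4 ≤ t) (h : j ∈ Js t) : 0 < j ∧ j ≤ 2 ^ t ∧ j ≤ 2 * W j := by
  obtain ⟨i, hi, rfl⟩ := mem_image.mp h
  rw [mem_Ioc] at hi
  have e : 2 ^ t = 8 * 2 ^ (t - 3) := by
    rw [show t = (t - 3) + 3 by omega, pow_add]; simp; ring
  exact ⟨by omega, by omega, W_half i⟩

lemma mem_Rs {t r : ℕ} (h : r ∈ Rs t) : r.Prime ∧ 2 ^ (10 * t) < r ∧ r ≤ 2 ^ (10 * t + 2 * t) := by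
  obtain ⟨h1, h2⟩ := mem_filter.mp h
  rw [mem_Ioc] at h1
  exact ⟨h2, h1.1, h1.2.trans (p2 (by omega))⟩

lemma mem_QS {t r : ℕ} (h : r ∈ QS t) : r.Prime ∧ 2 ^ (58 * t) < r ∧ r ≤ 2 ^ (58 * t + 2 * t) := by
  obtain ⟨h1, h2⟩ := mem_filter.mp h
  rw [mem_Ioc] at h1
  exact ⟨h2, h1.1, h1.2.trans (p2 (by omega))⟩

lemma W_jr {t j r : ℕ} (ht : 4 ≤ t) (hj : j ∈ Js t) (hr : r ∈ Rs t) : W (j * r) = j + r * W j := by
  obtain ⟨a1, a2, -⟩ := mem_Js ht hj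
  obtain ⟨b1, b2, -⟩ := mem_Rs hr
  have := p2 (show t ≤ 10 * t by omega)
  exact W_mul_prime a1.ne' b1 (Nat.not_dvd_of_pos_of_lt a1 (by omega))

/-- the properties of the first factor -/
def Gk (t k : ℕ) : Prop := 2 ^ (10 * t) < k ∧ k ≤ 2 ^ (13 * t) ∧ k ≤ 2 * W k

lemma mem_Ks {t k : ℕ} (ht : 4 ≤ t) (h : k ∈ Ks t) : Gk t k := by
  obtain ⟨z, hz, rfl⟩ := mem_image.mp h
  obtain ⟨hj, hr⟩ := mem_product.mp hz
  obtain ⟨a1, a2, a3⟩ := mem_Js ht hj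
  obtain ⟨b1, b2, b3⟩ := mem_Rs hr
  refine ⟨lt_of_lt_of_le b2 (Nat.le_mul_of_pos_left _ a1), mul_p2 a2 b3 (by omega), ?_⟩
  rw [W_jr ht hj hr]
  nlinarith

lemma Gk.pos {t k : ℕ} (h : Gk t k) : 0 < k := lt_of_le_of_lt (Nat.zero_le _) h.1

lemma Gk.W_le {t k : ℕ} (h : Gk t k) : W k ≤ 2 ^ (26 * t) :=
  (MP_559555_nt.W_le k).trans (mul_p2 h.2.1 h.2.1 (by omega))

lemma Gk.lt {t k q : ℕ} (h : Gk t k) (hq : q ∈ QS t) : k < q :=
  lt_of_le_of_lt (h.2.1.trans (p2 (by omega))) (mem_QS hq).2.1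

lemma aa_eq {t k q : ℕ} (h : Gk t k) (hq : q ∈ QS t) : W (k * q) = aa k q :=
  W_mul_prime h.pos.ne' (mem_QS hq).1 (Nat.not_dvd_of_pos_of_lt h.pos (h.lt hq))

lemma aa_pos {t k : ℕ} (h : Gk t k) (q : ℕ) : 0 < aa k q := by
  have := h.pos
  unfold aa; omega

lemma aa_le {t k q : ℕ} (ht : 4 ≤ t) (h : Gk t k) (hq : q ∈ QS t) : aa k q ≤ 2 ^ (87 * t) := by
  have h1 : q * W k ≤ 2 ^ (86 * t) := mul_p2 (mem_QS hq).2.2 h.W_le (by omega)
  have h2 : k ≤ 2 ^ (86 * t) := h.2.1.trans (p2 (by omega))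
  have h3 := p2 (show 86 * t + 1 ≤ 87 * t by omega)
  rw [pow_succ] at h3
  unfold aa; omega

lemma aa_ge {t k : ℕ} (h : Gk t k) (q : ℕ) : k * q ≤ 2 * aa k q := by
  have := h.2.2
  unfold aa; nlinarith

lemma m_le {t k q : ℕ} (h : Gk t k) (hq : q ∈ QS t) : k * q ≤ 2 ^ (73 * t) :=
  mul_p2 h.2.1 (mem_QS hq).2.2 (by omega)

lemma aa_coprime {t k q : ℕ} (h : Gk t k) (hq : q ∈ QS t) : Nat.Coprime (aa k q) k := by
  have := W_coprime (n := k * q) (Nat.mul_ne_zero h.pos.ne' (mem_QS hq).1.ne_zero)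
  rw [aa_eq h hq] at this
  exact Nat.Coprime.coprime_mul_right_right this

lemma m_inj {t k k' q q' : ℕ} (h : Gk t k) (h' : Gk t k') (hq : q ∈ QS t) (hq' : q' ∈ QS t)
    (e : k * q = k' * q') : k = k' ∧ q = q' := by
  have h1 : q ∣ k' * q' := e ▸ dvd_mul_left _ _
  rcases (Nat.Prime.dvd_mul (mem_QS hq).1).mp h1 with h2 | h2
  · exact absurd h2 (Nat.not_dvd_of_pos_of_lt h'.pos (h'.lt hq))
  · have h3 := (Nat.prime_dvd_prime_iff_eq (mem_QS hq).1 (mem_QS hq').1).mp h2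
    subst h3
    exact ⟨Nat.eq_of_mul_eq_mul_right (mem_QS hq).1.pos e, rfl⟩

lemma Dl_ne {t k k' : ℕ} (h : Gk t k) (h' : Gk t k') (hne : k ≠ k') : Dl k k' ≠ 0 := by
  intro e
  have e1 : (k : ℤ) ^ 2 * W k' = (k' : ℤ) ^ 2 * W k := by
    have := Int.natAbs_eq_zero.mp e; linarith
  have e2 : k ^ 2 * W k' = k' ^ 2 * W k := by exact_mod_cast e1
  have c1 : Nat.Coprime (k ^ 2) (W k) := (W_coprime h.pos.ne').symm.pow_left 2
  have c2 : Nat.Coprime (k' ^ 2) (W k') := (W_coprime h'.pos.ne').symm.pow_left 2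
  have d1 : k ^ 2 ∣ k' ^ 2 := c1.dvd_of_dvd_mul_right ⟨_, e2.symm⟩
  have d2 : k' ^ 2 ∣ k ^ 2 := c2.dvd_of_dvd_mul_right ⟨_, e2⟩
  exact hne (Nat.pow_left_injective (by norm_num : 2 ≠ 0) (Nat.dvd_antisymm d1 d2))

lemma Dl_le {t k k' : ℕ} (h : Gk t k) (h' : Gk t k') : Dl k k' ≤ 2 ^ (52 * t) := by
  have h1 : k * k * W k' ≤ 2 ^ (52 * t) :=
    mul_p2 (mul_p2 (c := 26 * t) h.2.1 h.2.1 (by omega)) h'.W_le (by omega)
  have h2 : k' * k' * W k ≤ 2 ^ (52 * t) :=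
    mul_p2 (mul_p2 (c := 26 * t) h'.2.1 h'.2.1 (by omega)) h.W_le (by omega)
  have e : Dl k k' = (((k * k * W k' : ℕ) : ℤ) - ((k' * k' * W k : ℕ) : ℤ)).natAbs := by
    unfold Dl; congr 1; push_cast; ring
  rw [e]
  generalize k * k * W k' = A at h1
  generalize k' * k' * W k = B at h2
  omega

lemma dvd_Dl {d k k' q q' : ℕ} (h1 : d ∣ aa k q) (h2 : d ∣ aa k' q')
    (h3 : k * q ≡ k' * q' [MOD d]) : d ∣ Dl k k' := by
  unfold Dl
  rw [← Int.natCast_dvd]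
  have a1 : (d : ℤ) ∣ (k : ℤ) + q * W k := by exact_mod_cast h1
  have a2 : (d : ℤ) ∣ (k' : ℤ) + q' * W k' := by exact_mod_cast h2
  have a3 : (d : ℤ) ∣ (k' : ℤ) * q' - k * q := by exact_mod_cast h3.dvd
  have e : (k : ℤ) ^ 2 * W k' - (k' : ℤ) ^ 2 * W k = (k + q * W k) * (k * W k') -
      (k' + q' * W k') * (k' * W k) + (k' * q' - k * q) * (W k * W k') := by ring
  rw [e]
  exact dvd_add (dvd_sub (a1.mul_right _) (a2.mul_right _)) (a3.mul_right _)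

lemma cong_aa {d k q q' : ℕ} (hk : k ≠ 0) (h1 : d ∣ aa k q) (h2 : d ∣ aa k q') :
    q ≡ q' [MOD d] := by
  have c : Nat.Coprime d (W k) := by
    apply Nat.coprime_of_dvd
    intro p hp a1 a2
    have a3 : p ∣ k := (Nat.dvd_add_iff_left (a2.mul_left q)).mpr (a1.trans h1)
    exact hp.one_lt.ne' (Nat.eq_one_of_dvd_coprimes (W_coprime hk) a2 a3)
  have h3 : k + q * W k ≡ k + q' * W k [MOD d] :=
    ((Nat.modEq_zero_iff_dvd).mpr h1).trans ((Nat.modEq_zero_iff_dvd).mpr h2).symm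
  exact Nat.ModEq.cancel_right_of_coprime c (Nat.ModEq.add_left_cancel' _ h3)

/-- indicator -/
noncomputable def ind (p : Prop) : ℝ := by classical exact if p then 1 else 0

lemma ind_nonneg (p : Prop) : 0 ≤ ind p := by unfold ind; split_ifs <;> norm_num
lemma ind_le_one (p : Prop) : ind p ≤ 1 := by unfold ind; split_ifs <;> norm_num
lemma ind_pos {p : Prop} (h : p) : ind p = 1 := by unfold ind; rw [if_pos h]
lemma ind_neg {p : Prop} (h : ¬ p) : ind p = 0 := by unfold ind; rw [if_neg h]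

lemma sum_ind (A : Finset ℕ) (p : ℕ → Prop) [DecidablePred p] (f : ℕ → ℝ) :
    ∑ q ∈ A, ind (p q) * f q = ∑ q ∈ A.filter p, f q := by
  rw [sum_filter]
  apply sum_congr rfl
  intro q _
  split_ifs with h
  · rw [ind_pos h, one_mul]
  · rw [ind_neg h, zero_mul]

lemma btQ {t D : ℕ} (ht : 4 ≤ t) (hD : 0 < D) (hD' : D ≤ 2 ^ (53 * t)) (p : ℕ → Prop)
    (h : ∀ u ∈ QS t, ∀ v ∈ QS t, p u → p v → u ≡ v [MOD D]) :
    ∑ q ∈ QS t, ind (p q) * (1 / (q : ℝ)) ≤ 26 * sg D / D := by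
  classical
  rw [sum_ind]
  exact bt t (58 * t) D (by omega) hD (mul_p2 hD' le_rfl (by omega)) _
    (fun q hq => mem_QS (mem_filter.mp hq).1)
    (fun u hu v hv => h u (mem_filter.mp hu).1 v (mem_filter.mp hv).1 (mem_filter.mp hu).2
      (mem_filter.mp hv).2)

lemma mem_Lp {t l : ℕ} (ht : 4 ≤ t) (h : l ∈ Lp t) : l.Prime ∧ l ≤ 2 ^ t := by
  obtain ⟨h1, h2⟩ := mem_filter.mp h
  rw [mem_range] at h1
  refine ⟨h2, le_trans (by omega : l ≤ t ^ 2) ?_⟩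
  clear h h1
  induction t, ht using Nat.le_induction with
  | base => norm_num
  | succ n hn ih => rw [pow_succ 2 n]; nlinarith

lemma btQl {t d l : ℕ} (ht : 4 ≤ t) (hd : 0 < d) (hd' : d ≤ 2 ^ (52 * t)) (hl : l ∈ Lp t)
    (hc : ¬ l ∣ d) (p : ℕ → Prop)
    (h : ∀ u ∈ QS t, ∀ v ∈ QS t, p u → p v → u ≡ v [MOD d] ∧ u ≡ v [MOD l]) :
    ∑ q ∈ QS t, ind (p q) * (1 / (q : ℝ)) ≤ 2 * (26 * sg d / d) * (1 / l) := by
  obtain ⟨h1, h2⟩ := mem_Lp ht hl
  have h3 := btQ ht (Nat.mul_pos hd h1.pos) (mul_p2 hd' h2 (by omega)) p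
    (fun u hu v hv a b => (Nat.modEq_and_modEq_iff_modEq_mul
      ((Nat.Prime.coprime_iff_not_dvd h1).mpr hc).symm).mp (h u hu v hv a b))
  refine h3.trans ?_
  have h4 := sg_mul_prime hd.ne' h1
  have e : 2 * (26 * sg d / d) * (1 / l) = 26 * (2 * sg d) / ((d * l : ℕ) : ℝ) := by
    push_cast; ring
  rw [e]
  gcongr

lemma sumT {t k k' d : ℕ} (ht : 4 ≤ t) (h : Gk t k) (h' : Gk t k') (hd : 0 < d)
    (hd' : d ≤ 2 ^ (52 * t)) :
    ∑ z ∈ QS t ×ˢ QS t, (ind (d ∣ aa k z.1) * (1 / (z.1 : ℝ))) *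
      (ind (d ∣ aa k' z.2) * (1 / (z.2 : ℝ))) ≤ (26 * sg d / d) ^ 2 := by
  rw [sum_product]
  dsimp only
  rw [← sum_mul_sum, sq]
  have h1 := btQ ht hd (hd'.trans (p2 (by omega))) (fun q => d ∣ aa k q)
    (fun u _ v _ a b => cong_aa h.pos.ne' a b)
  have h2 := btQ ht hd (hd'.trans (p2 (by omega))) (fun q => d ∣ aa k' q)
    (fun u _ v _ a b => cong_aa h'.pos.ne' a b)
  exact mul_le_mul h1 h2 (sum_nonneg fun _ _ => mul_nonneg (ind_nonneg _) (by positivity))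
    (by have := sg_nonneg d; positivity)

lemma ind_three (P P' A B C N : Prop) (u v : ℝ) (hu : 0 ≤ u) (hv : 0 ≤ v) :
    (ind P * u) * (ind P' * v) * ind (N ∧ (A ∨ B ∨ C)) ≤
      ind N * ((ind (P ∧ A) * u) * (ind P' * v) + (ind P * u) * (ind (P' ∧ B) * v) +
        (ind P * u) * (ind (P' ∧ C) * v)) := by
  have := mul_nonneg hu hv
  by_cases P <;> by_cases P' <;> by_cases A <;> by_cases B <;> by_cases C <;> by_cases N <;>
    simp [ind, *] <;> linarith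

lemma sumU {t k k' d l : ℕ} (ht : 4 ≤ t) (h : Gk t k) (h' : Gk t k') (hd : 0 < d)
    (hd' : d ≤ 2 ^ (52 * t)) (hdD : d ∣ Dl k k') (hl : l ∈ Lp t) :
    ∑ z ∈ QS t ×ˢ QS t, (ind (d ∣ aa k z.1) * (1 / (z.1 : ℝ))) *
      (ind (d ∣ aa k' z.2) * (1 / (z.2 : ℝ))) *
      ind (¬ l ∣ Dl k k' ∧ (l ∣ aa k z.1 ∨ l ∣ aa k' z.2 ∨ k * z.1 ≡ k' * z.2 [MOD l])) ≤
      6 * (26 * sg d / d) ^ 2 * (1 / l) := by
  refine (sum_le_sum fun z _ => ind_three _ _ _ _ _ _ _ _ (by positivity) (by positivity)).trans ?_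
  have hs := sg_nonneg d
  rw [← mul_sum]
  by_cases hD : l ∣ Dl k k'
  · rw [ind_neg (not_not.mpr hD), zero_mul]; positivity
  rw [ind_pos hD, one_mul, sum_add_distrib, sum_add_distrib, sum_product, sum_product,
    sum_product]
  dsimp only
  rw [← sum_mul_sum, ← sum_mul_sum]
  have hc : ¬ l ∣ d := fun e => hD (e.trans hdD)
  have n1 : ∀ p : ℕ → Prop, 0 ≤ ∑ q ∈ QS t, ind (p q) * (1 / (q : ℝ)) := fun p =>
    sum_nonneg fun _ _ => mul_nonneg (ind_nonneg _) (by positivity)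
  have h1 := btQ ht hd (hd'.trans (p2 (by omega))) (fun q => d ∣ aa k q)
    (fun u _ v _ a b => cong_aa h.pos.ne' a b)
  have h2 := btQ ht hd (hd'.trans (p2 (by omega))) (fun q => d ∣ aa k' q)
    (fun u _ v _ a b => cong_aa h'.pos.ne' a b)
  have h3 := btQl ht hd hd' hl hc (fun q => d ∣ aa k q ∧ l ∣ aa k q)
    (fun u _ v _ a b => ⟨cong_aa h.pos.ne' a.1 b.1, cong_aa h.pos.ne' a.2 b.2⟩)
  have h4 := btQl ht hd hd' hl hc (fun q => d ∣ aa k' q ∧ l ∣ aa k' q)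
    (fun u _ v _ a b => ⟨cong_aa h'.pos.ne' a.1 b.1, cong_aa h'.pos.ne' a.2 b.2⟩)
  have h5 : ∀ q ∈ QS t, ∑ q' ∈ QS t, ind (d ∣ aa k q) * (1 / (q : ℝ)) *
      (ind (d ∣ aa k' q' ∧ k * q ≡ k' * q' [MOD l]) * (1 / (q' : ℝ))) ≤
      ind (d ∣ aa k q) * (1 / (q : ℝ)) * (2 * (26 * sg d / d) * (1 / l)) := by
    intro q hq
    rw [← mul_sum]
    apply mul_le_mul_of_nonneg_left _ (mul_nonneg (ind_nonneg _) (by positivity))
    apply btQl ht hd hd' hl hc (fun q' => d ∣ aa k' q' ∧ k * q ≡ k' * q' [MOD l])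
    intro u _ v _ a b
    refine ⟨cong_aa h'.pos.ne' a.1 b.1, ?_⟩
    obtain ⟨l1, l2⟩ := mem_Lp ht hl
    have c : ¬ l ∣ k' := by
      intro e
      have e1 : l ∣ k * q := (a.2.dvd_iff (dvd_refl l)).mpr (e.mul_right _)
      rcases (Nat.Prime.dvd_mul l1).mp e1 with e2 | e2
      · apply hD
        unfold Dl
        rw [← Int.natCast_dvd]
        have b1 : (l : ℤ) ∣ k := by exact_mod_cast e2
        have b2 : (l : ℤ) ∣ k' := by exact_mod_cast e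
        exact dvd_sub ((dvd_pow b1 (by norm_num)).mul_right _)
          ((dvd_pow b2 (by norm_num)).mul_right _)
      · have := (Nat.prime_dvd_prime_iff_eq l1 (mem_QS hq).1).mp e2
        have := (mem_QS hq).2.1
        have := p2 (show t ≤ 58 * t by omega)
        omega
    exact Nat.ModEq.cancel_left_of_coprime ((Nat.Prime.coprime_iff_not_dvd l1).mpr c)
      (a.2.symm.trans b.2)
  have h6 := sum_le_sum h5
  rw [← sum_mul] at h6
  set B := 26 * sg d / d with hB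
  have hB0 : 0 ≤ B := by positivity
  have hl0 : (0 : ℝ) ≤ 1 / l := by positivity
  have g1 := mul_le_mul h3 h2 (n1 _) (by positivity)
  have g2 := mul_le_mul h1 h4 (n1 _) hB0
  have g3 := mul_le_mul_of_nonneg_right h1 (show 0 ≤ 2 * B * (1 / (l : ℝ)) by positivity)
  nlinarith

/-- the weight of a pair -/
noncomputable def FF (k k' : ℕ) (z : ℕ × ℕ) : ℝ :=
  ind (k * z.1 ≡ k' * z.2 [MOD Nat.gcd (aa k z.1) (aa k' z.2)]) * Nat.gcd (aa k z.1) (aa k' z.2) *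
    sg (aa k z.1 * aa k' z.2 * (((k * z.1 : ℕ) : ℤ) - (k' * z.2 : ℕ)).natAbs) ^ 2 *
    (1 / (z.1 : ℝ) * (1 / (z.2 : ℝ)))

lemma inner_bound : ∃ C : ℝ, 0 ≤ C ∧ ∀ t k k' : ℕ, 4 ≤ t → Gk t k → Gk t k' → k ≠ k' →
    ∑ z ∈ QS t ×ˢ QS t, FF k k' z ≤ C * sg (Dl k k') ^ 5 := by
  obtain ⟨C1, hC1, h1⟩ := pointwise 2
  obtain ⟨C2, hC2, h2⟩ := sum32
  refine ⟨C1 * (26 ^ 2 * (248 + 6 * C2)) * 2, by positivity, fun t k k' ht h h' hne => ?_⟩
  have hD := Dl_ne h h' hne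
  have hD' := Dl_le h h'
  set D := Dl k k' with hDdef
  have hs := sg_nonneg D
  set α : ℕ → ℕ × ℕ → ℝ := fun d z => (ind (d ∣ aa k z.1) * (1 / (z.1 : ℝ))) *
      (ind (d ∣ aa k' z.2) * (1 / (z.2 : ℝ))) with hα
  set β : ℕ → ℕ × ℕ → ℝ := fun l z =>
    ind (¬ l ∣ D ∧ (l ∣ aa k z.1 ∨ l ∣ aa k' z.2 ∨ k * z.1 ≡ k' * z.2 [MOD l])) with hβ
  have hα0 : ∀ d z, 0 ≤ α d z := fun d z =>
    mul_nonneg (mul_nonneg (ind_nonneg _) (by positivity)) (mul_nonneg (ind_nonneg _) (by positivity))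
  have key : ∀ z ∈ QS t ×ˢ QS t, FF k k' z ≤ ∑ d ∈ D.divisors, sg D ^ 2 * C1 * d *
      (248 * α d z + ∑ l ∈ Lp t, 1 / Real.sqrt l * (α d z * β l z)) := by
    intro z hz
    obtain ⟨hq, hq'⟩ := mem_product.mp hz
    have n0 : ∀ d ∈ D.divisors, 0 ≤ sg D ^ 2 * C1 * d *
        (248 * α d z + ∑ l ∈ Lp t, 1 / Real.sqrt l * (α d z * β l z)) := fun d _ =>
      mul_nonneg (by positivity) (add_nonneg (mul_nonneg (by norm_num) (hα0 d z))
        (sum_nonneg fun l _ => mul_nonneg (by positivity) (mul_nonneg (hα0 d z) (ind_nonneg _))))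
    unfold FF
    by_cases hc : k * z.1 ≡ k' * z.2 [MOD Nat.gcd (aa k z.1) (aa k' z.2)]
    swap
    · rw [ind_neg hc]; simp only [zero_mul]; exact sum_nonneg n0
    have hg : Nat.gcd (aa k z.1) (aa k' z.2) ∈ D.divisors :=
      Nat.mem_divisors.mpr ⟨dvd_Dl (Nat.gcd_dvd_left _ _) (Nat.gcd_dvd_right _ _) hc, hD⟩
    refine le_trans ?_ (single_le_sum n0 hg)
    have e1 : α (Nat.gcd (aa k z.1) (aa k' z.2)) z = 1 / (z.1 : ℝ) * (1 / (z.2 : ℝ)) := by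
      simp only [hα, ind_pos (Nat.gcd_dvd_left (aa k z.1) (aa k' z.2)),
        ind_pos (Nat.gcd_dvd_right (aa k z.1) (aa k' z.2)), one_mul]
    rw [ind_pos hc, one_mul, e1]
    set N := aa k z.1 * aa k' z.2 * (((k * z.1 : ℕ) : ℤ) - (k' * z.2 : ℕ)).natAbs with hN
    have hm : k * z.1 ≠ k' * z.2 := fun e => hne (m_inj h h' hq hq' e).1
    have hN0 : N ≠ 0 := Nat.mul_ne_zero (Nat.mul_ne_zero (aa_pos h _).ne' (aa_pos h' _).ne')
      (Int.natAbs_ne_zero.mpr (by omega))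
    have hN1 : N ≤ 2 ^ (247 * t) := by
      refine mul_p2 (b := 73 * t) (mul_p2 (c := 174 * t) (aa_le ht h hq) (aa_le ht h' hq') (by omega)) ?_ (by omega)
      have := m_le h hq
      have := m_le h' hq'
      omega
    have s1 := sg_split N D
    have s2 := h1 (N.primeFactors \ D.primeFactors)
      (fun l hl => Nat.prime_of_mem_primeFactors (mem_sdiff.mp hl).1)
    have s3 := cut (N.primeFactors \ D.primeFactors) N 247 t (by omega) hN0 hN1 sdiff_subset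
    have s4 : ∑ l ∈ Lp t, (if l ∈ N.primeFactors \ D.primeFactors then 1 / Real.sqrt l else 0) ≤
        ∑ l ∈ Lp t, 1 / Real.sqrt l * β l z := by
      apply sum_le_sum
      intro l _
      split_ifs with hl
      · obtain ⟨a1, a2⟩ := mem_sdiff.mp hl
        have lp := Nat.prime_of_mem_primeFactors a1
        have : β l z = 1 := by
          apply ind_pos
          refine ⟨fun e => a2 (Nat.mem_primeFactors.mpr ⟨lp, e, hD⟩), ?_⟩
          rcases (Nat.Prime.dvd_mul lp).mp (Nat.dvd_of_mem_primeFactors a1) with e | e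
          · rcases (Nat.Prime.dvd_mul lp).mp e with e | e
            · exact Or.inl e
            · exact Or.inr (Or.inl e)
          · exact Or.inr (Or.inr (Nat.ModEq.symm
              ((Nat.modEq_iff_dvd).mpr (Int.natCast_dvd.mpr e))))
        rw [this, mul_one]
      · exact mul_nonneg (by positivity) (ind_nonneg _)
    have s5 : sg N ^ 2 ≤ sg D ^ 2 * (C1 * (248 + ∑ l ∈ Lp t, 1 / Real.sqrt l * β l z)) := by
      calc sg N ^ 2 ≤ (sg D * ∏ l ∈ N.primeFactors \ D.primeFactors, (1 + 1 / (l : ℝ))) ^ 2 :=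
            pow_le_pow_left₀ (sg_nonneg N) s1 2
        _ = sg D ^ 2 * (∏ l ∈ N.primeFactors \ D.primeFactors, (1 + 1 / (l : ℝ))) ^ 2 := by ring
        _ ≤ _ := by
            apply mul_le_mul_of_nonneg_left (s2.trans _) (by positivity)
            apply mul_le_mul_of_nonneg_left _ hC1.le
            push_cast at s3
            linarith
    have e2 : ∑ l ∈ Lp t, 1 / Real.sqrt l * (1 / (z.1 : ℝ) * (1 / (z.2 : ℝ)) * β l z) =
        1 / (z.1 : ℝ) * (1 / (z.2 : ℝ)) * ∑ l ∈ Lp t, 1 / Real.sqrt l * β l z := by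
      rw [mul_sum]; exact sum_congr rfl fun _ _ => by ring
    rw [e2]
    calc (Nat.gcd (aa k z.1) (aa k' z.2) : ℝ) * sg N ^ 2 * (1 / (z.1 : ℝ) * (1 / (z.2 : ℝ)))
        ≤ (Nat.gcd (aa k z.1) (aa k' z.2) : ℝ) *
          (sg D ^ 2 * (C1 * (248 + ∑ l ∈ Lp t, 1 / Real.sqrt l * β l z))) *
          (1 / (z.1 : ℝ) * (1 / (z.2 : ℝ))) := by gcongr
      _ = _ := by ring
  refine (sum_le_sum key).trans ?_
  rw [sum_comm]
  have k2 : ∀ d ∈ D.divisors, ∑ z ∈ QS t ×ˢ QS t, sg D ^ 2 * C1 * d *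
      (248 * α d z + ∑ l ∈ Lp t, 1 / Real.sqrt l * (α d z * β l z)) ≤
      sg D ^ 4 * (C1 * (26 ^ 2 * (248 + 6 * C2))) * (1 / d) := by
    intro d hd
    have d0 := Nat.pos_of_mem_divisors hd
    have d1 := (Nat.divisor_le hd).trans hD'
    have d2 := Nat.dvd_of_mem_divisors hd
    rw [← mul_sum, sum_add_distrib, ← mul_sum, sum_comm]
    have a1 : ∑ z ∈ QS t ×ˢ QS t, α d z ≤ (26 * sg d / d) ^ 2 := sumT ht h h' d0 d1
    have a2 : ∑ l ∈ Lp t, ∑ z ∈ QS t ×ˢ QS t, 1 / Real.sqrt l * (α d z * β l z) ≤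
        6 * (26 * sg d / d) ^ 2 * C2 := by
      refine le_trans (sum_le_sum (g := fun l : ℕ => 6 * (26 * sg d / d) ^ 2 *
        (1 / Real.sqrt l * (1 / (l : ℝ)))) fun l hl => ?_) ?_
      · rw [← mul_sum]
        have := sumU ht h h' d0 d1 d2 hl
        calc _ ≤ 1 / Real.sqrt l * (6 * (26 * sg d / d) ^ 2 * (1 / l)) :=
              mul_le_mul_of_nonneg_left this (by positivity)
          _ = _ := by ring
      · rw [← mul_sum]
        exact mul_le_mul_of_nonneg_left (h2 _) (by positivity)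
    have a3 : (26 * sg d / d) ^ 2 ≤ (26 * sg D / d) ^ 2 := by
      have := sg_mono d2 hD
      have := sg_nonneg d
      gcongr
    have d0' : (0 : ℝ) < d := by exact_mod_cast d0
    calc _ ≤ sg D ^ 2 * C1 * d * ((248 + 6 * C2) * (26 * sg D / d) ^ 2) := by
          apply mul_le_mul_of_nonneg_left _ (by positivity)
          nlinarith
      _ = _ := by field_simp
  refine (sum_le_sum k2).trans ?_
  rw [← mul_sum]
  calc _ ≤ sg D ^ 4 * (C1 * (26 ^ 2 * (248 + 6 * C2))) * (sg D * 2) :=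
        mul_le_mul_of_nonneg_left (sum_div_le D hD) (by positivity)
    _ = _ := by ring

end Pool.Agent.H.MP_559555_nt
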