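import Pool.Agent.H.MP_559555_nt.C

set_option autoImplicit false

namespace Pool.Agent.H.MP_559555_nt
open Finset Pool.Agent.H.MP_3aed06_nt

lemma btR {t D : ℕ} (ht : 4 ≤ t) (hD : 0 < D) (hD' : D ≤ 2 ^ t) (p : ℕ → Prop)
    (h : ∀ u ∈ Rs t, ∀ v ∈ Rs t, p u → p v → u ≡ v [MOD D]) :
    ∑ q ∈ Rs t, ind (p q) * (1 / (q : ℝ)) ≤ 26 * sg D / D := by
  classical
  rw [sum_ind]
  exact bt t (10 * t) D (by omega) hD (mul_p2 hD' le_rfl (by omega)) _
    (fun q hq => mem_Rs (mem_filter.mp hq).1)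
    (fun u hu v hv => h u (mem_filter.mp hu).1 v (mem_filter.mp hv).1 (mem_filter.mp hu).2
      (mem_filter.mp hv).2)

lemma jr_inj {t : ℕ} (ht : 4 ≤ t) :
    Set.InjOn (fun z : ℕ × ℕ => z.1 * z.2) (Js t ×ˢ Rs t : Finset (ℕ × ℕ)) := by
  intro z hz z' hz' e
  obtain ⟨hj, hr⟩ := mem_product.mp (mem_coe.mp hz)
  obtain ⟨hj', hr'⟩ := mem_product.mp (mem_coe.mp hz')
  dsimp only at e
  have h1 : z.2 ∣ z'.1 * z'.2 := e ▸ dvd_mul_left _ _
  rcases (Nat.Prime.dvd_mul (mem_Rs hr).1).mp h1 with h2 | h2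
  · have := p2 (show t ≤ 10 * t by omega)
    have := (mem_Rs hr).2.1
    have := (mem_Js ht hj').2.1
    exact absurd h2 (Nat.not_dvd_of_pos_of_lt (mem_Js ht hj').1 (by omega))
  · have h3 := (Nat.prime_dvd_prime_iff_eq (mem_Rs hr).1 (mem_Rs hr').1).mp h2
    rw [← h3] at e
    exact Prod.ext (Nat.eq_of_mul_eq_mul_right (mem_Rs hr).1.pos e) h3

lemma quad_roots {l : ℕ} [Fact l.Prime] (a b c : ZMod l) (h : a ≠ 0 ∨ c ≠ 0) :
    ∃ R : Finset (ZMod l), R.card ≤ 2 ∧ ∀ x, a * x ^ 2 + b * x + c = 0 → x ∈ R := by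
  classical
  set f : Polynomial (ZMod l) := Polynomial.C a * Polynomial.X ^ 2 + Polynomial.C b * Polynomial.X +
    Polynomial.C c with hf
  have h0 : f ≠ 0 := by
    intro e
    have h1 := congrArg (fun g => Polynomial.coeff g 2) e
    have h2 := congrArg (fun g => Polynomial.coeff g 0) e
    simp [hf] at h1 h2
    tauto
  refine ⟨f.roots.toFinset, (Multiset.toFinset_card_le _).trans ((Polynomial.card_roots' f).trans
    Polynomial.natDegree_quadratic_le), fun x hx => ?_⟩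
  rw [Multiset.mem_toFinset, Polynomial.mem_roots h0, Polynomial.IsRoot.def]
  simpa [hf] using hx

lemma sg_prime_le {l : ℕ} (hl : l.Prime) : sg l ≤ 2 := by
  have := sg_mul_prime (d := 1) one_ne_zero hl
  simpa [sg] using this

lemma sumR {t j k' l : ℕ} (ht : 4 ≤ t) (hj : j ∈ Js t) (h' : Gk t k') (hl : l ∈ Lp t) :
    ∑ r ∈ Rs t, ind (l ∣ Dl (j * r) k') * (1 / (r : ℝ)) ≤ ind (l ∣ j) * 26 + 104 * (1 / l) := by
  obtain ⟨l1, l2⟩ := mem_Lp ht hl
  by_cases hc : l ∣ j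
  · have := btR ht one_pos Nat.one_le_two_pow (fun r => l ∣ Dl (j * r) k')
      (fun u _ v _ _ _ => Nat.modEq_one)
    have e : sg 1 = 1 := by simp [sg]
    rw [e] at this
    rw [ind_pos hc]
    have : (0 : ℝ) ≤ 1 / l := by positivity
    push_cast at *
    linarith
  rw [ind_neg hc, zero_mul, zero_add]
  haveI : Fact l.Prime := ⟨l1⟩
  have hj0 : (j : ZMod l) ≠ 0 := fun e => hc ((ZMod.natCast_eq_zero_iff j l).mp e)
  obtain ⟨R, hR1, hR2⟩ := quad_roots (l := l) ((j : ZMod l) ^ 2 * W k')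
    (-((k' : ZMod l) ^ 2 * W j)) (-((k' : ZMod l) ^ 2 * j)) (by
      by_cases e : l ∣ k'
      · left
        refine mul_ne_zero (pow_ne_zero _ hj0) (fun e2 => ?_)
        exact l1.one_lt.ne' (Nat.eq_one_of_dvd_coprimes (W_coprime h'.pos.ne')
          ((ZMod.natCast_eq_zero_iff _ l).mp e2) e)
      · right
        exact neg_ne_zero.mpr (mul_ne_zero (pow_ne_zero _
          (fun e2 => e ((ZMod.natCast_eq_zero_iff _ l).mp e2))) hj0))
  have h1 : ∀ r ∈ Rs t, ind (l ∣ Dl (j * r) k') * (1 / (r : ℝ)) ≤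
      ∑ ρ ∈ R, ind ((r : ZMod l) = ρ) * (1 / (r : ℝ)) := by
    intro r hr
    have n0 : ∀ ρ ∈ R, 0 ≤ ind ((r : ZMod l) = ρ) * (1 / (r : ℝ)) := fun _ _ =>
      mul_nonneg (ind_nonneg _) (by positivity)
    by_cases e : l ∣ Dl (j * r) k'
    · have h2 : (r : ZMod l) ∈ R := by
        apply hR2
        unfold Dl at e
        rw [← Int.natCast_dvd, ← ZMod.intCast_zmod_eq_zero_iff_dvd, W_jr ht hj hr] at e
        push_cast at e
        linear_combination e
      refine le_trans ?_ (single_le_sum n0 h2)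
      rw [ind_pos e, ind_pos rfl]
    · rw [ind_neg e, zero_mul]; exact sum_nonneg n0
  refine (sum_le_sum h1).trans ?_
  rw [sum_comm]
  have h2 := sum_le_card_nsmul R (fun ρ => ∑ r ∈ Rs t, ind ((r : ZMod l) = ρ) * (1 / (r : ℝ)))
    (52 * (1 / l)) (fun ρ _ => by
      refine (btR ht l1.pos l2 (fun r => (r : ZMod l) = ρ) (fun u _ v _ a b =>
        (ZMod.natCast_eq_natCast_iff _ _ _).mp (a.trans b.symm))).trans ?_
      have := sg_prime_le l1
      rw [mul_one_div]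
      gcongr
      linarith)
  rw [nsmul_eq_mul] at h2
  have h3 : (R.card : ℝ) ≤ 2 := by exact_mod_cast hR1
  have : (0 : ℝ) ≤ 1 / l := by positivity
  nlinarith

lemma sumK {t k' l : ℕ} (ht : 4 ≤ t) (h' : Gk t k') (hl : l ∈ Lp t) :
    ∑ k ∈ Ks t, ind (l ∣ Dl k k') * (1 / (k : ℝ)) ≤ 130 * (1 + t) * (1 / l) := by
  unfold Ks
  rw [sum_image (jr_inj ht), sum_product]
  have h1 : ∀ j ∈ Js t, ∑ r ∈ Rs t, ind (l ∣ Dl (j * r) k') * (1 / ((j * r : ℕ) : ℝ)) ≤
      26 * (ind (l ∣ j) * (1 / j)) + 104 * (1 / l) * (1 / j) := by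
    intro j hj
    have := mul_le_mul_of_nonneg_right (sumR ht hj h' hl) (show (0 : ℝ) ≤ 1 / j by positivity)
    rw [sum_mul] at this
    refine le_trans (le_of_eq (sum_congr rfl fun r _ => ?_)) (this.trans (le_of_eq (by ring)))
    push_cast
    rw [mul_assoc, one_div_mul_one_div, mul_comm (r : ℝ)]
  refine (sum_le_sum h1).trans ?_
  rw [sum_add_distrib, ← mul_sum, ← mul_sum, sum_ind]
  have h2 := harm_dvd ((Js t).filter (fun j => l ∣ j)) t l (fun n hn =>
    ⟨(mem_Js ht (mem_filter.mp hn).1).1, (mem_Js ht (mem_filter.mp hn).1).2.1, (mem_filter.mp hn).2⟩)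
  have h3 := harm_sub (Js t) t (fun n hn => ⟨(mem_Js ht hn).1, (mem_Js ht hn).2.1⟩)
  have h4 : 104 * (1 / (l : ℝ)) * ∑ j ∈ Js t, 1 / (j : ℝ) ≤ 104 * (1 / l) * (1 + t) := by gcongr
  rw [← mul_one_div] at h2
  linarith

lemma harmK {t : ℕ} (ht : 4 ≤ t) : ∑ k ∈ Ks t, 1 / (k : ℝ) ≤ 14 * t := by
  have h := harm_sub (Ks t) (13 * t) (fun n hn => ⟨(mem_Ks ht hn).pos, (mem_Ks ht hn).2.1⟩)
  have : (4 : ℝ) ≤ t := by exact_mod_cast ht
  push_cast at h
  linarith

lemma outer_bound : ∃ C : ℝ, 0 ≤ C ∧ ∀ t : ℕ, 4 ≤ t →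
    ∑ k ∈ Ks t, ∑ k' ∈ Ks t, ind (k ≠ k') * sg (Dl k k') ^ 5 * (1 / (k : ℝ) * (1 / (k' : ℝ))) ≤
      C * t ^ 2 := by
  obtain ⟨C1, hC1, h1⟩ := pointwise 5
  obtain ⟨C2, hC2, h2⟩ := sum32
  refine ⟨C1 * (53 * 14 ^ 2 + 260 * 14 * C2), by positivity, fun t ht => ?_⟩
  have ht' : (4 : ℝ) ≤ t := by exact_mod_cast ht
  have key : ∀ k' ∈ Ks t, ∀ k ∈ Ks t,
      ind (k ≠ k') * sg (Dl k k') ^ 5 * (1 / (k : ℝ) * (1 / (k' : ℝ))) ≤
      C1 * (1 / k') * (53 * (1 / k) + ∑ l ∈ Lp t, 1 / Real.sqrt l *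
        (ind (l ∣ Dl k k') * (1 / (k : ℝ)))) := by
    intro k' hk' k hk
    by_cases hne : k = k'
    · rw [ind_neg (not_not.mpr hne), zero_mul, zero_mul]
      exact mul_nonneg (by positivity) (add_nonneg (by positivity) (sum_nonneg fun _ _ =>
        mul_nonneg (by positivity) (mul_nonneg (ind_nonneg _) (by positivity))))
    have hD := Dl_ne (mem_Ks ht hk) (mem_Ks ht hk') hne
    have s2 := h1 (Dl k k').primeFactors (fun l hl => Nat.prime_of_mem_primeFactors hl)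
    have s3 := cut (Dl k k').primeFactors (Dl k k') 52 t (by omega) hD
      (Dl_le (mem_Ks ht hk) (mem_Ks ht hk')) (Subset.refl _)
    have s4 : ∑ l ∈ Lp t, (if l ∈ (Dl k k').primeFactors then 1 / Real.sqrt l else 0) ≤
        ∑ l ∈ Lp t, 1 / Real.sqrt l * ind (l ∣ Dl k k') := by
      apply sum_le_sum
      intro l _
      split_ifs with hl
      · rw [ind_pos (Nat.dvd_of_mem_primeFactors hl), mul_one]
      · exact mul_nonneg (by positivity) (ind_nonneg _)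
    have s5 : sg (Dl k k') ^ 5 ≤ C1 * (53 + ∑ l ∈ Lp t, 1 / Real.sqrt l * ind (l ∣ Dl k k')) := by
      apply s2.trans
      apply mul_le_mul_of_nonneg_left _ hC1.le
      push_cast at s3
      linarith
    have e : ∑ l ∈ Lp t, 1 / Real.sqrt l * (ind (l ∣ Dl k k') * (1 / (k : ℝ))) =
        (∑ l ∈ Lp t, 1 / Real.sqrt l * ind (l ∣ Dl k k')) * (1 / k) := by
      rw [sum_mul]; exact sum_congr rfl fun _ _ => by ring
    rw [ind_pos hne, one_mul, e]
    calc _ ≤ C1 * (53 + ∑ l ∈ Lp t, 1 / Real.sqrt l * ind (l ∣ Dl k k')) *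
          (1 / (k : ℝ) * (1 / (k' : ℝ))) := by gcongr
      _ = _ := by ring
  rw [sum_comm]
  refine (sum_le_sum fun k' hk' => sum_le_sum (key k' hk')).trans ?_
  have hK := harmK ht
  have k2 : ∀ k' ∈ Ks t, ∑ k ∈ Ks t, C1 * (1 / k') * (53 * (1 / k) + ∑ l ∈ Lp t, 1 / Real.sqrt l *
        (ind (l ∣ Dl k k') * (1 / (k : ℝ)))) ≤ C1 * (53 * 14 * t + 260 * t * C2) * (1 / k') := by
    intro k' hk'
    rw [← mul_sum, sum_add_distrib, ← mul_sum, sum_comm]
    have a2 : ∑ l ∈ Lp t, ∑ k ∈ Ks t, 1 / Real.sqrt l * (ind (l ∣ Dl k k') * (1 / (k : ℝ))) ≤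
        260 * t * C2 := by
      refine le_trans (sum_le_sum (g := fun l : ℕ => 260 * t *
        (1 / Real.sqrt l * (1 / (l : ℝ)))) fun l hl => ?_) ?_
      · rw [← mul_sum]
        have := sumK ht (mem_Ks ht hk') hl
        calc _ ≤ 1 / Real.sqrt l * (130 * (1 + t) * (1 / l)) :=
              mul_le_mul_of_nonneg_left this (by positivity)
          _ ≤ 1 / Real.sqrt l * (130 * (2 * t) * (1 / l)) := by gcongr; linarith
          _ = _ := by ring
      · rw [← mul_sum]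
        exact mul_le_mul_of_nonneg_left (h2 _) (by positivity)
    calc _ ≤ C1 * (1 / k') * (53 * 14 * t + 260 * t * C2) := by
          apply mul_le_mul_of_nonneg_left _ (by positivity)
          linarith
      _ = _ := by ring
  refine (sum_le_sum k2).trans ?_
  rw [← mul_sum]
  calc _ ≤ C1 * (53 * 14 * t + 260 * t * C2) * (14 * t) :=
        mul_le_mul_of_nonneg_left hK (by positivity)
    _ = _ := by ring

/-- the weight of a pair with the same first factor -/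
noncomputable def GG (k : ℕ) (z : ℕ × ℕ) : ℝ :=
  ind (z.1 ≠ z.2 ∧ k * z.1 ≡ k * z.2 [MOD Nat.gcd (aa k z.1) (aa k z.2)]) *
    Nat.gcd (aa k z.1) (aa k z.2) * (1 / (z.1 : ℝ) * (1 / (z.2 : ℝ)))

lemma diag_bound : ∃ C : ℝ, 0 ≤ C ∧ ∀ t k : ℕ, 4 ≤ t → Gk t k →
    ∑ z ∈ QS t ×ˢ QS t, GG k z ≤ C * 2 ^ (7 * t) := by
  obtain ⟨C, hC⟩ := divisor_bound 29 (by norm_num)
  refine ⟨C, by positivity, fun t k ht h => ?_⟩
  rw [sum_product]
  have key : ∀ q ∈ QS t, ∑ q' ∈ QS t, GG k (q, q') ≤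
      C * 2 ^ (3 * t) * 2 ^ (60 * t) * (1 / 2 ^ (58 * t) * (1 / 2 ^ (58 * t))) := by
    intro q hq
    have hinv : ∀ u ∈ QS t, 1 / (u : ℝ) ≤ 1 / 2 ^ (58 * t) := fun u hu =>
      one_div_le_one_div_of_le (by positivity) (by exact_mod_cast (mem_QS hu).2.1.le)
    have h1 : ∀ q' ∈ QS t, GG k (q, q') ≤ ∑ d ∈ (aa k q).divisors,
        ind (q ≠ q' ∧ q ≡ q' [MOD d]) * (d * (1 / 2 ^ (58 * t) * (1 / 2 ^ (58 * t)))) := by
      intro q' hq'
      have n0 : ∀ d ∈ (aa k q).divisors, (0 : ℝ) ≤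
          ind (q ≠ q' ∧ q ≡ q' [MOD d]) * (d * (1 / 2 ^ (58 * t) * (1 / 2 ^ (58 * t)))) :=
        fun _ _ => mul_nonneg (ind_nonneg _) (by positivity)
      unfold GG
      dsimp only
      by_cases hc : q ≠ q' ∧ k * q ≡ k * q' [MOD Nat.gcd (aa k q) (aa k q')]
      · have hg : Nat.gcd (aa k q) (aa k q') ∈ (aa k q).divisors :=
          Nat.mem_divisors.mpr ⟨Nat.gcd_dvd_left _ _, (aa_pos h q).ne'⟩
        refine le_trans ?_ (single_le_sum n0 hg)
        rw [ind_pos hc, ind_pos ⟨hc.1, cong_aa h.pos.ne' (Nat.gcd_dvd_left _ _)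
          (Nat.gcd_dvd_right _ _)⟩, one_mul, one_mul]
        have := hinv q hq
        have := hinv q' hq'
        gcongr
      · rw [ind_neg hc, zero_mul, zero_mul]; exact sum_nonneg n0
    refine (sum_le_sum h1).trans ?_
    rw [sum_comm]
    have h2 := sum_le_card_nsmul (aa k q).divisors (fun d => ∑ q' ∈ QS t,
      ind (q ≠ q' ∧ q ≡ q' [MOD d]) * ((d : ℝ) * (1 / 2 ^ (58 * t) * (1 / 2 ^ (58 * t)))))
      (2 ^ (60 * t) * (1 / 2 ^ (58 * t) * (1 / 2 ^ (58 * t)))) (fun d hd => by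
        have d0 := Nat.pos_of_mem_divisors hd
        rw [sum_ind (QS t) (fun q' => q ≠ q' ∧ q ≡ q' [MOD d]) (fun _ => (d : ℝ) *
          (1 / 2 ^ (58 * t) * (1 / 2 ^ (58 * t)))), sum_const, nsmul_eq_mul, ← mul_assoc]
        apply mul_le_mul_of_nonneg_right _ (by positivity)
        have a1 := card_cong (insert q ((QS t).filter (fun q' => q ≠ q' ∧ q ≡ q' [MOD d]))) d
          (2 ^ (60 * t)) (fun u hu => by
            rcases mem_insert.mp hu with rfl | hu
            · exact (mem_QS hq).2.2.trans (p2 (by omega))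
            · exact (mem_QS (mem_filter.mp hu).1).2.2.trans (p2 (by omega)))
          (fun u hu v hv => by
            have b : ∀ u ∈ insert q ((QS t).filter (fun q' => q ≠ q' ∧ q ≡ q' [MOD d])),
                q ≡ u [MOD d] := fun u hu => by
              rcases mem_insert.mp hu with rfl | hu
              · rfl
              · exact (mem_filter.mp hu).2.2
            exact (b u hu).symm.trans (b v hv))
        rw [card_insert_of_notMem (fun e => (mem_filter.mp e).2.1 rfl)] at a1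
        have a2 : ((QS t).filter (fun q' => q ≠ q' ∧ q ≡ q' [MOD d])).card * d ≤ 2 ^ (60 * t) :=
          (Nat.mul_le_mul_right d (Nat.le_of_succ_le_succ a1)).trans (Nat.div_mul_le_self _ _)
        exact_mod_cast a2)
    rw [nsmul_eq_mul] at h2
    refine h2.trans ?_
    have h3 : (aa k q).divisors.card ≤ C * 2 ^ (3 * t) := by
      apply (Nat.pow_le_pow_iff_left (show 29 ≠ 0 by norm_num)).mp
      refine (hC _ (aa_pos h q).ne').trans ?_
      rw [mul_pow, ← pow_mul]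
      exact Nat.mul_le_mul_left _ ((aa_le ht h hq).trans (p2 (by omega)))
    have h4 : ((aa k q).divisors.card : ℝ) ≤ C * 2 ^ (3 * t) := by exact_mod_cast h3
    rw [mul_assoc _ (2 ^ (60 * t) : ℝ)]
    gcongr
  have h2 := sum_le_card_nsmul _ _ _ key
  rw [nsmul_eq_mul] at h2
  have h3 : (QS t).card ≤ 2 ^ (60 * t) := by
    calc (QS t).card ≤ (Ioc (2 ^ (58 * t)) (2 ^ (60 * t))).card := card_le_card (filter_subset _ _)
      _ ≤ _ := by rw [Nat.card_Ioc]; exact Nat.sub_le _ _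
  have h4 : ((QS t).card : ℝ) ≤ 2 ^ (60 * t) := by exact_mod_cast h3
  refine h2.trans ((mul_le_mul_of_nonneg_right h4 (by positivity)).trans (le_of_eq ?_))
  field_simp
  ring

lemma cs {α : Type} (S : Finset α) (φ : α → ℕ) :
    (S.card : ℝ) ^ 2 ≤ (S.image φ).card * ∑ s ∈ S, ∑ s' ∈ S, ind (φ s = φ s') := by
  have h1 : (S.card : ℝ) = ∑ v ∈ S.image φ, ((S.filter (fun s => φ s = v)).card : ℝ) := by
    exact_mod_cast card_eq_sum_card_image φ S
  have h2 : ∑ s ∈ S, ∑ s' ∈ S, ind (φ s = φ s') =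
      ∑ v ∈ S.image φ, ((S.filter (fun s => φ s = v)).card : ℝ) ^ 2 := by
    have := sum_comp (s := S) (fun v => ((S.filter (fun s => φ s = v)).card : ℝ)) φ
    simp only [nsmul_eq_mul, ← sq] at this
    rw [← this]
    apply sum_congr rfl
    intro s _
    rw [card_filter]
    push_cast
    apply sum_congr rfl
    intro s' _
    split_ifs with h
    · exact ind_pos h.symm
    · exact ind_neg (fun e => h e.symm)
  rw [h1, h2]
  exact sq_sum_le_card_mul_sum_sq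

end Pool.Agent.H.MP_559555_nt
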