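import Pool.Agent.H.MP_559555_nt.D

set_option autoImplicit false

namespace Pool.Agent.H.MP_559555_nt
open Finset Pool.Agent.H.MP_3aed06_nt

def PP (t : ℕ) (μ : ℕ × ℕ) : Finset ℕ :=
  (range (2 ^ (200 * t) + 1)).filter
    (fun P => P.Prime ∧ 2 ^ (60 * t) < P ∧ μ.1 * μ.2 * P ≤ 2 ^ (200 * t))

def SS (t : ℕ) : Finset (Σ _ : ℕ × ℕ, ℕ) := (Ks t ×ˢ QS t).sigma (PP t)

def ph (s : Σ _ : ℕ × ℕ, ℕ) : ℕ := s.1.1 * s.1.2 + s.2 * aa s.1.1 s.1.2

def CC (t : ℕ) (μ ν : ℕ × ℕ) : Finset (ℕ × ℕ) :=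
  (PP t μ ×ˢ PP t ν).filter
    (fun z => μ.1 * μ.2 + z.1 * aa μ.1 μ.2 = ν.1 * ν.2 + z.2 * aa ν.1 ν.2)

lemma coll_eq (t : ℕ) : ∑ s ∈ SS t, ∑ s' ∈ SS t, ind (ph s = ph s') =
    ∑ μ ∈ Ks t ×ˢ QS t, ∑ ν ∈ Ks t ×ˢ QS t, ((CC t μ ν).card : ℝ) := by
  unfold SS
  rw [sum_sigma]
  apply sum_congr rfl
  intro μ _
  simp only [sum_sigma]
  rw [sum_comm]
  apply sum_congr rfl
  intro ν _
  unfold CC
  rw [card_filter, sum_product]
  push_cast
  refine sum_congr rfl fun P _ => sum_congr rfl fun P' _ => ?_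
  split_ifs with h
  · exact ind_pos h
  · exact ind_neg h

lemma mem_CC {t : ℕ} {μ ν z : ℕ × ℕ} (hm : 0 < μ.1 * μ.2) (h : z ∈ CC t μ ν) :
    (z.1 ≤ 2 ^ (200 * t) / (μ.1 * μ.2) ∧
      μ.1 * μ.2 + z.1 * aa μ.1 μ.2 = ν.1 * ν.2 + z.2 * aa ν.1 ν.2) ∧
    (z.1.Prime ∧ 2 ^ t < z.1 ∧ z.2.Prime ∧ 2 ^ t < z.2) := by
  obtain ⟨h1, h2⟩ := mem_filter.mp h
  obtain ⟨h3, h4⟩ := mem_product.mp h1
  obtain ⟨-, a1, a2, a3⟩ := mem_filter.mp h3
  obtain ⟨-, b1, b2, b3⟩ := mem_filter.mp h4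
  have := p2 (show t ≤ 60 * t by omega)
  exact ⟨⟨(Nat.le_div_iff_mul_le hm).mpr (by rwa [mul_comm]), h2⟩, a1, by omega, b1, by omega⟩

lemma y_bound {t k q k' q' g : ℕ} (h : Gk t k) (h' : Gk t k') (hq : q ∈ QS t) (hq' : q' ∈ QS t)
    (hg : 0 < g) :
    ((2 ^ (200 * t) / (k * q) : ℕ) : ℝ) * g / aa k' q' + 1 ≤
      3 * 2 ^ (200 * t) * (1 / (k : ℝ) * (1 / (k' : ℝ))) * (g * (1 / (q : ℝ) * (1 / (q' : ℝ)))) := by
  have a1 : (0 : ℝ) < k := by exact_mod_cast h.pos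
  have a2 : (0 : ℝ) < k' := by exact_mod_cast h'.pos
  have a3 : (0 : ℝ) < q := by exact_mod_cast (mem_QS hq).1.pos
  have a4 : (0 : ℝ) < q' := by exact_mod_cast (mem_QS hq').1.pos
  have a5 : (1 : ℝ) ≤ g := by exact_mod_cast hg
  have a6 : (k' : ℝ) * q' / 2 ≤ aa k' q' := by
    have : ((k' * q' : ℕ) : ℝ) ≤ ((2 * aa k' q' : ℕ) : ℝ) := by exact_mod_cast aa_ge h' q'
    push_cast at this; linarith
  have a7 : ((2 ^ (200 * t) / (k * q) : ℕ) : ℝ) ≤ 2 ^ (200 * t) / (k * q) := by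
    have := Nat.cast_div_le (α := ℝ) (m := 2 ^ (200 * t)) (n := k * q)
    push_cast at this ⊢; exact this
  have a8 : (k : ℝ) * q * (k' * q') ≤ 2 ^ (200 * t) := by
    exact_mod_cast mul_p2 (m_le h hq) (m_le h' hq') (show 73 * t + 73 * t ≤ 200 * t by omega)
  have b1 : ((2 ^ (200 * t) / (k * q) : ℕ) : ℝ) * g / aa k' q' ≤
      2 ^ (200 * t) / (k * q) * g / (k' * q' / 2) := by gcongr
  have b2 : (1 : ℝ) ≤ 2 ^ (200 * t) * g / (k * q * (k' * q')) := by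
    rw [le_div_iff₀ (by positivity)]
    nlinarith [show (0 : ℝ) < 2 ^ (200 * t) by positivity]
  have e : 3 * 2 ^ (200 * t) * (1 / (k : ℝ) * (1 / (k' : ℝ))) * (g * (1 / (q : ℝ) * (1 / (q' : ℝ)))) =
      2 ^ (200 * t) / (k * q) * g / (k' * q' / 2) + 2 ^ (200 * t) * g / (k * q * (k' * q')) := by
    field_simp; ring
  rw [e]; linarith

lemma CC_off {t k q k' q' : ℕ} (ht : 4 ≤ t) (h : Gk t k) (h' : Gk t k') (hq : q ∈ QS t)
    (hq' : q' ∈ QS t) (hne : k ≠ k') :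
    ((CC t (k, q) (k', q')).card : ℝ) ≤ (1 + 192 * Real.exp 2) * 2 ^ (200 * t) / t ^ 2 *
      (1 / (k : ℝ) * (1 / (k' : ℝ))) * FF k k' (q, q') := by
  have hm : 0 < k * q := Nat.mul_pos h.pos (mem_QS hq).1.pos
  have h1 := pair_sieve (k * q) (aa k q) (k' * q') (aa k' q') (2 ^ (200 * t) / (k * q)) t
    (aa_pos h q) (aa_pos h' q') (fun e => hne (m_inj h h' hq hq' e).1) (CC t (k, q) (k', q'))
    (fun z hz => (mem_CC (μ := (k, q)) hm hz).1) (fun z hz => (mem_CC (μ := (k, q)) hm hz).2)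
  unfold FF
  dsimp only
  split_ifs at h1 with hc
  swap
  · rw [ind_neg hc]; simpa using h1
  rw [ind_pos hc, one_mul]
  refine h1.trans ?_
  have hg : 0 < Nat.gcd (aa k q) (aa k' q') := Nat.gcd_pos_of_pos_left _ (aa_pos h q)
  have h2 := y_bound h h' hq hq' hg
  have hs := one_le_sg (aa k q * aa k' q' * (((k * q : ℕ) : ℤ) - (k' * q' : ℕ)).natAbs)
  generalize sg (aa k q * aa k' q' * (((k * q : ℕ) : ℤ) - (k' * q' : ℕ)).natAbs) = s at hs ⊢
  generalize Nat.gcd (aa k q) (aa k' q') = g at hg h2 ⊢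
  have a1 : (0 : ℝ) < k := by exact_mod_cast h.pos
  have a2 : (0 : ℝ) < k' := by exact_mod_cast h'.pos
  have a3 : (0 : ℝ) < q := by exact_mod_cast (mem_QS hq).1.pos
  have a4 : (0 : ℝ) < q' := by exact_mod_cast (mem_QS hq').1.pos
  have a5 : (1 : ℝ) ≤ g := by exact_mod_cast hg
  have ht' : (4 : ℝ) ≤ t := by exact_mod_cast ht
  have a6 : 2 * (2 ^ t) ^ 8 * t ^ 2 * (k * q * (k' * q')) ≤ 2 ^ (200 * t) := by
    have b1 : t ≤ 2 ^ t := Nat.lt_two_pow_self.le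
    have b2 : 2 ≤ 2 ^ t := le_trans (by omega) b1
    rw [← pow_mul, sq t]
    exact mul_p2 (mul_p2 (mul_p2 b2 le_rfl le_rfl) (mul_p2 b1 b1 le_rfl) le_rfl)
      (mul_p2 (m_le h hq) (m_le h' hq') le_rfl) (by omega)
  have a7 : 2 * ((2 : ℝ) ^ t) ^ 8 * t ^ 2 * (k * q * (k' * q')) ≤ 2 ^ (200 * t) := by
    exact_mod_cast a6
  have b1 : 2 * ((2 : ℝ) ^ t) ^ 8 ≤ 2 ^ (200 * t) / t ^ 2 * (1 / (k : ℝ) * (1 / (k' : ℝ))) *
      (g * s ^ 2 * (1 / (q : ℝ) * (1 / (q' : ℝ)))) := by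
    have e : 2 ^ (200 * t) / t ^ 2 * (1 / (k : ℝ) * (1 / (k' : ℝ))) *
      (g * s ^ 2 * (1 / (q : ℝ) * (1 / (q' : ℝ)))) =
      2 ^ (200 * t) * (g * s ^ 2) / (t ^ 2 * (k * q * (k' * q'))) := by field_simp
    rw [e, le_div_iff₀ (by positivity), ← mul_assoc]
    refine a7.trans (le_mul_of_one_le_right (by positivity) ?_)
    exact one_le_mul_of_one_le_of_one_le a5 (one_le_pow₀ hs)
  have b2 : 64 * Real.exp 2 * s ^ 2 / ((t : ℝ) + 1) ^ 2 ≤ 64 * Real.exp 2 * s ^ 2 / t ^ 2 := by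
    gcongr; linarith
  have b3 := mul_le_mul h2 b2 (by positivity) (by positivity)
  refine (add_le_add b1 b3).trans (le_of_eq ?_)
  field_simp
  ring

lemma CC_diag {t k q q' : ℕ} (h : Gk t k) (hq : q ∈ QS t) (hq' : q' ∈ QS t) (hne : q ≠ q') :
    ((CC t (k, q) (k, q')).card : ℝ) ≤ 3 * 2 ^ (200 * t) *
      (1 / (k : ℝ) * (1 / (k : ℝ))) * GG k (q, q') := by
  have hm : 0 < k * q := Nat.mul_pos h.pos (mem_QS hq).1.pos
  have h1 := pair_triv (k * q) (aa k q) (k * q') (aa k q') (2 ^ (200 * t) / (k * q))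
    (aa_pos h q) (aa_pos h q') (CC t (k, q) (k, q'))
    (fun z hz => (mem_CC (μ := (k, q)) hm hz).1)
  unfold GG
  dsimp only
  split_ifs at h1 with hc
  swap
  · rw [ind_neg (fun e => hc e.2)]; simpa using h1
  rw [ind_pos ⟨hne, hc⟩, one_mul]
  exact h1.trans (y_bound h h hq hq' (Nat.gcd_pos_of_pos_left _ (aa_pos h q)))

lemma CC_same {t k q : ℕ} (h : Gk t k) :
    (CC t (k, q) (k, q)).card ≤ (PP t (k, q)).card := by
  apply card_le_card_of_injOn (fun z => z.1)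
  · intro z hz
    exact (mem_product.mp (mem_filter.mp (mem_coe.mp hz)).1).1
  · intro z hz z' hz' e
    have h1 := (mem_filter.mp (mem_coe.mp hz)).2
    have h2 := (mem_filter.mp (mem_coe.mp hz')).2
    dsimp only at h1 h2 e
    have h3 := Nat.eq_of_mul_eq_mul_right (aa_pos h q) (Nat.add_left_cancel h1)
    have h4 := Nat.eq_of_mul_eq_mul_right (aa_pos h q) (Nat.add_left_cancel h2)
    exact Prod.ext e (by omega)

lemma FF_nonneg (k k' : ℕ) (z : ℕ × ℕ) : 0 ≤ FF k k' z :=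
  mul_nonneg (mul_nonneg (mul_nonneg (ind_nonneg _) (by positivity)) (sq_nonneg _)) (by positivity)

lemma GG_nonneg (k : ℕ) (z : ℕ × ℕ) : 0 ≤ GG k z :=
  mul_nonneg (mul_nonneg (ind_nonneg _) (by positivity)) (by positivity)

lemma coll_le : ∃ C : ℝ, 0 ≤ C ∧ ∀ t : ℕ, 4 ≤ t →
    ∑ s ∈ SS t, ∑ s' ∈ SS t, ind (ph s = ph s') ≤ (SS t).card + C * 2 ^ (200 * t) := by
  obtain ⟨C1, hC1, h1⟩ := inner_bound
  obtain ⟨C2, hC2, h2⟩ := outer_bound
  obtain ⟨C3, hC3, h3⟩ := diag_bound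
  refine ⟨42 * C3 + (1 + 192 * Real.exp 2) * C1 * C2, by positivity, fun t ht => ?_⟩
  have ht' : (4 : ℝ) ≤ t := by exact_mod_cast ht
  set A : ℝ := (1 + 192 * Real.exp 2) * 2 ^ (200 * t) / t ^ 2 with hA
  have hA0 : 0 ≤ A := by positivity
  rw [coll_eq, sum_product]
  simp only [sum_product]
  have key : ∀ k ∈ Ks t, ∑ q ∈ QS t, ∑ k' ∈ Ks t, ∑ q' ∈ QS t, ((CC t (k, q) (k', q')).card : ℝ) ≤
      ∑ q ∈ QS t, ((PP t (k, q)).card : ℝ) + 3 * 2 ^ (200 * t) * C3 / t * (1 / k) +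
        A * C1 * ∑ k' ∈ Ks t, ind (k ≠ k') * sg (Dl k k') ^ 5 * (1 / (k : ℝ) * (1 / (k' : ℝ))) := by
    intro k hk
    have g := mem_Ks ht hk
    rw [sum_comm, ← add_sum_erase _ _ hk]
    apply add_le_add
    · have a1 : ∀ q ∈ QS t, ∑ q' ∈ QS t, ((CC t (k, q) (k, q')).card : ℝ) ≤
          (PP t (k, q)).card + ∑ q' ∈ QS t, 3 * 2 ^ (200 * t) *
            (1 / (k : ℝ) * (1 / (k : ℝ))) * GG k (q, q') := by
        intro q hq
        rw [← add_sum_erase _ _ hq]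
        apply add_le_add (by exact_mod_cast CC_same g)
        refine (sum_le_sum fun q' hq' => CC_diag g hq (mem_erase.mp hq').2
          (Ne.symm (mem_erase.mp hq').1)).trans ?_
        exact sum_le_sum_of_subset_of_nonneg (erase_subset _ _)
          (fun _ _ _ => mul_nonneg (by positivity) (GG_nonneg _ _))
      refine (sum_le_sum a1).trans ?_
      rw [sum_add_distrib]
      apply add_le_add le_rfl
      have a2 := h3 t k ht g
      rw [sum_product] at a2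
      simp only [← mul_sum]
      have a3 : (2 : ℝ) ^ (7 * t) * t ≤ k := by
        have : 2 ^ (7 * t) * t ≤ k :=
          (mul_p2 le_rfl Nat.lt_two_pow_self.le (show 7 * t + t ≤ 10 * t by omega)).trans g.1.le
        exact_mod_cast this
      have a4 : (0 : ℝ) < k := by exact_mod_cast g.pos
      calc _ ≤ 3 * 2 ^ (200 * t) * (1 / (k : ℝ) * (1 / (k : ℝ))) * (C3 * 2 ^ (7 * t)) := by gcongr
        _ = 3 * 2 ^ (200 * t) * C3 / t * (1 / k) * (2 ^ (7 * t) * t / k) := by field_simp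
        _ ≤ _ := mul_le_of_le_one_right (by positivity) ((div_le_one a4).mpr a3)
    · rw [mul_sum]
      refine le_trans (sum_le_sum fun k' hk' => ?_) (sum_le_sum_of_subset_of_nonneg
        (erase_subset k _) (fun _ _ _ => mul_nonneg (by positivity) (mul_nonneg (mul_nonneg
          (ind_nonneg _) (pow_nonneg (sg_nonneg _) _)) (by positivity))))
      obtain ⟨hne, hk'⟩ := mem_erase.mp hk'
      have g' := mem_Ks ht hk'
      refine (sum_le_sum fun q hq => sum_le_sum fun q' hq' =>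
        CC_off ht g g' hq hq' (Ne.symm hne)).trans ?_
      have a2 := h1 t k k' ht g g' (Ne.symm hne)
      rw [sum_product] at a2
      simp only [← mul_sum]
      rw [ind_pos (Ne.symm hne), ← hA]
      calc _ ≤ A * (1 / (k : ℝ) * (1 / (k' : ℝ))) * (C1 * sg (Dl k k') ^ 5) := by gcongr
        _ = _ := by ring
  refine (sum_le_sum key).trans ?_
  rw [sum_add_distrib, sum_add_distrib, ← mul_sum, ← mul_sum]
  have e : ∑ k ∈ Ks t, ∑ q ∈ QS t, ((PP t (k, q)).card : ℝ) = (SS t).card := by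
    unfold SS
    rw [card_sigma, sum_product]
    push_cast
    rfl
  have b1 : 3 * 2 ^ (200 * t) * C3 / t * ∑ k ∈ Ks t, 1 / (k : ℝ) ≤
      3 * 2 ^ (200 * t) * C3 / t * (14 * t) := mul_le_mul_of_nonneg_left (harmK ht) (by positivity)
  have b2 := mul_le_mul_of_nonneg_left (h2 t ht) (show 0 ≤ A * C1 by positivity)
  have e1 : 3 * 2 ^ (200 * t) * C3 / t * (14 * t) = 42 * C3 * 2 ^ (200 * t) := by
    field_simp; ring
  have e2 : A * C1 * (C2 * t ^ 2) = (1 + 192 * Real.exp 2) * C1 * C2 * 2 ^ (200 * t) := by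
    rw [hA]; field_simp
  rw [e]
  linarith

lemma harmJ {t : ℕ} (ht : 4 ≤ t) : (t : ℝ) / 24 ≤ ∑ j ∈ Js t, 1 / (j : ℝ) := by
  unfold Js
  rw [sum_image (fun a _ b _ e => by omega)]
  have h1 := H_ge (t - 3)
  have h2 : ∑ n ∈ Ioc (0 : ℕ) (2 ^ (t - 3)), 1 / 6 * (1 / (n : ℝ)) ≤
      ∑ n ∈ Ioc (0 : ℕ) (2 ^ (t - 3)), 1 / ((4 * n + 2 : ℕ) : ℝ) := by
    apply sum_le_sum
    intro n hn
    have : (1 : ℝ) ≤ n := by exact_mod_cast (mem_Ioc.mp hn).1
    rw [one_div_mul_one_div]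
    apply one_div_le_one_div_of_le (by positivity)
    push_cast; linarith
  rw [← mul_sum] at h2
  rw [Nat.cast_sub (by omega)] at h1
  have ht' : (4 : ℝ) ≤ t := by exact_mod_cast ht
  push_cast at h1
  linarith

lemma card_ge : ∃ c : ℝ, 0 < c ∧ ∃ t0 : ℕ, ∀ t : ℕ, t0 ≤ t →
    c * 2 ^ (200 * t) ≤ (SS t).card := by
  obtain ⟨u0, h0⟩ := recip_lower
  obtain ⟨y0, h1⟩ := cheb
  refine ⟨1 / 1600 * (1 / 24 * (1 / 48) * (1 / 240)), by norm_num, u0 + y0 + 4, fun t ht => ?_⟩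
  have ht4 : 4 ≤ t := by omega
  have ht' : (4 : ℝ) ≤ t := by exact_mod_cast ht4
  have hR : (1 : ℝ) / 48 ≤ ∑ r ∈ Rs t, 1 / (r : ℝ) := by
    have := h0 (5 * t) t (by omega)
    have e1 : 4 ^ (5 * t) = 2 ^ (10 * t) := by
      rw [show 4 = 2 ^ 2 by norm_num, ← pow_mul]; congr 1; ring
    have e2 : 4 ^ (5 * t + t) = 2 ^ (12 * t) := by
      rw [show 4 = 2 ^ 2 by norm_num, ← pow_mul]; congr 1; ring
    rw [e1, e2] at this
    refine le_trans (le_of_eq ?_) this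
    push_cast; field_simp; ring
  have hQ : (1 : ℝ) / 240 ≤ ∑ r ∈ QS t, 1 / (r : ℝ) := by
    have := h0 (29 * t) t (by omega)
    have e1 : 4 ^ (29 * t) = 2 ^ (58 * t) := by
      rw [show 4 = 2 ^ 2 by norm_num, ← pow_mul]; congr 1; ring
    have e2 : 4 ^ (29 * t + t) = 2 ^ (60 * t) := by
      rw [show 4 = 2 ^ 2 by norm_num, ← pow_mul]; congr 1; ring
    rw [e1, e2] at this
    refine le_trans (le_of_eq ?_) this
    push_cast; field_simp; ring
  have hK : (t : ℝ) / 24 * (1 / 48) ≤ ∑ k ∈ Ks t, 1 / (k : ℝ) := by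
    unfold Ks
    rw [sum_image (jr_inj ht4), sum_product]
    have e : ∑ j ∈ Js t, ∑ r ∈ Rs t, 1 / ((j * r : ℕ) : ℝ) =
        (∑ j ∈ Js t, 1 / (j : ℝ)) * ∑ r ∈ Rs t, 1 / (r : ℝ) := by
      rw [sum_mul_sum]
      refine sum_congr rfl fun j _ => sum_congr rfl fun r _ => ?_
      push_cast; rw [one_div_mul_one_div]
    rw [e]
    exact mul_le_mul (harmJ ht4) hR (by norm_num) (sum_nonneg fun _ _ => by positivity)
  have hP : ∀ k ∈ Ks t, ∀ q ∈ QS t, 2 ^ (200 * t) / (1600 * t) * (1 / (k : ℝ) * (1 / (q : ℝ))) ≤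
      (PP t (k, q)).card := by
    intro k hk q hq
    have g := mem_Ks ht4 hk
    have hm : 0 < k * q := Nat.mul_pos g.pos (mem_QS hq).1.pos
    have hm2 : 4 * (k * q) ≤ 2 ^ (74 * t) :=
      mul_p2 (a := 2) (by norm_num) (m_le g hq) (by omega)
    set y := 2 ^ (200 * t) / (4 * (k * q)) with hy
    have y1 : 2 ^ (60 * t) ≤ y :=
      (Nat.le_div_iff_mul_le (by omega)).mpr (mul_p2 le_rfl hm2 (by omega))
    have y2 : y * (4 * (k * q)) ≤ 2 ^ (200 * t) := Nat.div_mul_le_self _ _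
    have y3 : 2 ^ (200 * t) < (y + 1) * (4 * (k * q)) := by
      rw [mul_comm (y + 1)]; exact Nat.lt_mul_div_succ _ (by omega)
    have y4 : t < 2 ^ (60 * t) := lt_of_lt_of_le Nat.lt_two_pow_self (p2 (by omega))
    have a1 := h1 y (by omega)
    have a2 : ((Ioc y (4 * y)).filter Nat.Prime).card ≤ (PP t (k, q)).card := by
      apply card_le_card
      intro P hP
      obtain ⟨b1, b2⟩ := mem_filter.mp hP
      rw [mem_Ioc] at b1
      have b3 : k * q * P ≤ 2 ^ (200 * t) := by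
        have := Nat.mul_le_mul_left (k * q) b1.2
        nlinarith
      refine mem_filter.mpr ⟨mem_range.mpr ?_, b2, by omega, b3⟩
      have := Nat.le_mul_of_pos_left P hm
      omega
    have a3 : Real.log (4 * y) ≤ 200 * t := by
      have b1 : (4 * y : ℝ) ≤ 2 ^ (200 * t) := by
        have : 4 * y ≤ 2 ^ (200 * t) := by nlinarith
        exact_mod_cast this
      have b2 : (0 : ℝ) < 4 * y := by
        have : 0 < 4 * y := by omega
        exact_mod_cast this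
      refine (Real.log_le_log b2 b1).trans ?_
      rw [Real.log_pow]
      have := Real.log_two_lt_d9
      push_cast
      nlinarith
    have a4 : (y : ℝ) ≤ (PP t (k, q)).card * (200 * t) := by
      refine a1.trans (mul_le_mul (by exact_mod_cast a2) a3 (Real.log_nonneg ?_) (by positivity))
      have : 1 ≤ 4 * y := by omega
      exact_mod_cast this
    have a5 : (2 : ℝ) ^ (200 * t) ≤ y * (8 * (k * q)) := by
      have : 2 ^ (200 * t) ≤ y * (8 * (k * q)) := by nlinarith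
      exact_mod_cast this
    have k0 : (0 : ℝ) < k := by exact_mod_cast g.pos
    have q0 : (0 : ℝ) < q := by exact_mod_cast (mem_QS hq).1.pos
    rw [one_div_mul_one_div, mul_one_div, div_div, div_le_iff₀ (by positivity)]
    refine a5.trans ?_
    calc (y : ℝ) * (8 * (k * q)) ≤ (PP t (k, q)).card * (200 * t) * (8 * (k * q)) := by gcongr
      _ = _ := by ring
  have e : ((SS t).card : ℝ) = ∑ k ∈ Ks t, ∑ q ∈ QS t, ((PP t (k, q)).card : ℝ) := by
    unfold SS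
    rw [card_sigma, sum_product]
    push_cast
    rfl
  rw [e]
  refine le_trans ?_ (sum_le_sum fun k hk => sum_le_sum (hP k hk))
  simp only [← mul_sum]
  rw [← sum_mul]
  have := mul_le_mul hK hQ (by norm_num) (sum_nonneg fun _ _ => by positivity)
  calc _ = 2 ^ (200 * t) / (1600 * t) * ((t : ℝ) / 24 * (1 / 48) * (1 / 240)) := by field_simp
    _ ≤ _ := mul_le_mul_of_nonneg_left this (by positivity)

lemma image_sub {t : ℕ} (ht : 4 ≤ t) : (SS t).image ph ⊆ (Icc 1 (2 ^ (200 * t))).image W := by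
  intro v hv
  obtain ⟨⟨⟨k, q⟩, P⟩, hs, rfl⟩ := mem_image.mp hv
  obtain ⟨h1, h2⟩ := mem_sigma.mp hs
  obtain ⟨hk, hq⟩ := mem_product.mp h1
  obtain ⟨-, a1, a2, a3⟩ := mem_filter.mp h2
  dsimp only at hk hq a1 a2 a3
  have g := mem_Ks ht hk
  have hm : 0 < k * q := Nat.mul_pos g.pos (mem_QS hq).1.pos
  refine mem_image.mpr ⟨k * q * P, mem_Icc.mpr ⟨Nat.mul_pos hm a1.pos, a3⟩, ?_⟩
  have b1 := g.lt hq
  have b2 : q ≤ 2 ^ (60 * t) := (mem_QS hq).2.2.trans (p2 (by omega))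
  rw [W_mul_prime hm.ne' a1, aa_eq g hq]
  · rfl
  · intro e
    rcases (Nat.Prime.dvd_mul a1).mp e with e | e
    · exact Nat.not_dvd_of_pos_of_lt g.pos (by omega) e
    · exact Nat.not_dvd_of_pos_of_lt (mem_QS hq).1.pos (by omega) e

theorem main : ∃ c : ℝ, 0 < c ∧ ∃ t0 : ℕ, ∀ t : ℕ, t0 ≤ t →
    c * 2 ^ (200 * t) ≤ ((Icc 1 (2 ^ (200 * t))).image W).card := by
  obtain ⟨C, hC, h1⟩ := coll_le
  obtain ⟨c, hc, t0, h2⟩ := card_ge
  refine ⟨c / (1 + C / c), by positivity, t0 + 4, fun t ht => ?_⟩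
  have a1 := h1 t (by omega)
  have a2 := h2 t (by omega)
  have a3 := cs (SS t) ph
  have a4 : (((SS t).image ph).card : ℝ) ≤ ((Icc 1 (2 ^ (200 * t))).image W).card := by
    exact_mod_cast card_le_card (image_sub (by omega))
  have a0 : 0 ≤ ∑ s ∈ SS t, ∑ s' ∈ SS t, ind (ph s = ph s') :=
    sum_nonneg fun _ _ => sum_nonneg fun _ _ => ind_nonneg _
  generalize ∑ s ∈ SS t, ∑ s' ∈ SS t, ind (ph s = ph s') = E at a0 a1 a3
  have hV : (0 : ℝ) ≤ ((Icc 1 (2 ^ (200 * t))).image W).card := by positivity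
  generalize (((Icc 1 (2 ^ (200 * t))).image W).card : ℝ) = V at a4 hV
  have hx : (0 : ℝ) < 2 ^ (200 * t) := by positivity
  generalize (2 : ℝ) ^ (200 * t) = x at a1 a2 hx
  generalize ((SS t).card : ℝ) = s at a1 a2 a3
  have hs : 0 < s := lt_of_lt_of_le (by positivity) a2
  have b1 : C * x ≤ C / c * s := by
    calc C * x = C / c * (c * x) := by field_simp
      _ ≤ _ := by gcongr
  have b2 : s * s ≤ V * (1 + C / c) * s := by
    calc s * s = s ^ 2 := by ring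
      _ ≤ V * E := a3.trans (by gcongr)
      _ ≤ V * (s + C / c * s) := by gcongr; linarith
      _ = _ := by ring
  have b3 := le_of_mul_le_mul_right b2 hs
  rw [div_mul_eq_mul_div, div_le_iff₀ (by positivity)]
  linarith

end Pool.Agent.H.MP_559555_nt
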